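import Pool.Agent.FTH.Defs
import Pool.Agent.FTD.Degree

/-!
# Degrees in the graph for odd diameters (copy of `Pool.Agent.FTD.gGraph_edges`, file FTD/Degree)

A block vertex which is not `Bot` has at most `k` neighbours as in FTD/Degree. A `Bot` vertex has at most two `lw` neighbours, `h - 1` neighbours
in its clique and `h - 1` new neighbours. A new vertex has `h` bottom neighbours and `h` new ones. Leftover: the `k` hubs.
Hub: the other hubs, two vertices in every block, the leftover vertices.
-/

set_option autoImplicit false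

namespace Pool.Agent.FTH

open Pool.Agent.Helper68 Pool.Agent.FT6 Pool.Agent.FTD

variable {k t g s nC L M N m : ℕ}

private theorem lw_low {x y : TV k} (hl : lw t x y) : low t x y := by
  rcases hl with hl | hl | ⟨h0, hl | hl | hl⟩
  · exact Or.inl hl
  · exact Or.inr (Or.inl hl)
  · exact Or.inr (Or.inr ⟨h0, Or.inl hl⟩)
  · exact Or.inr (Or.inr ⟨h0, Or.inr (Or.inl hl)⟩)
  · exact Or.inr (Or.inr ⟨h0, Or.inr (Or.inr (Or.inl hl))⟩)

/-- the data of a neighbour -/
private def oraw : (Fin k ⊕ XX k t s nC M L N m) → Fin k ⊕ (TV k ⊕ Unit)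
  | .inl i => .inl i
  | .inr (.inl y) => .inr (.inl y.2.1)
  | .inr (.inr _) => .inr (.inr ())

/-- the `lw` neighbours of a bottom vertex -/
private theorem bot_lw {x y : TV k} (hx : Blk t x) (hb : Bot t x) (hy : Blk t y) (ht : 2 ≤ t)
    (hl : lw t x y) : y = (x.1, x.2.1, x.2.2.tail) ∨ y = nx t (x.2.2.headD x.1) x := by
  obtain ⟨b1, b2⟩ := hb
  rcases hl with hl | hl | ⟨h0, hl⟩
  · left
    obtain ⟨h1, h2, b, h3⟩ := hl
    rw [h3, List.tail_cons, h1, h2]
  · exfalso
    obtain ⟨h1, h2, b, h3⟩ := hl
    have h4 := hy.2.2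
    rw [h2, b1, h3, List.length_cons] at h4
    simp only [Bool.false_eq_true, if_false] at h4
    omega
  · right
    rcases hl with hl | hl | hl
    · exfalso
      have := hl.2.1
      omega
    · exfalso
      have := hl.1
      rw [b1] at this
      exact Bool.false_ne_true this
    · have h1 := cross_eq_nx (t := t) (x := x) (y := y) ⟨h0, Or.inr (Or.inr (Or.inl hl))⟩
      have h2 := hl.2.2.2.2
      rw [h2, List.headD_cons]
      exact h1

section deg

open Classical

variable (e : Fin nC × Fin g ≃ Fin L × BT k t) [DecidableRel (oGraph e s M N m).Adj] [NeZero M]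

private theorem degree_nonbot (β : BI s M L N) (x : {x // x ∈ blk k t}) (hb : ¬ Bot t x.1) :
    (oGraph e s M N m).degree (.inr (.inl (β, x))) ≤ k := by
  rw [← SimpleGraph.card_neighborFinset_eq_degree]
  have key : ∀ v ∈ (oGraph e s M N m).neighborFinset (.inr (.inl (β, x))),
      (∃ i, v = .inl i ∧ x.1.1 = i ∧ x.1.2.2 = []) ∨
      (∃ y : {x // x ∈ blk k t}, v = .inr (.inl (β, y)) ∧ low t x.1 y.1) := by
    intro v hv
    rw [SimpleGraph.mem_neighborFinset] at hv
    rcases v with i | ⟨β', y⟩ | y | z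
    · left
      exact ⟨i, rfl, hv⟩
    · right
      have h2 : (β = β' ∧ lw t x.1 y.1) ∨ PE e β β' x.1 y.1 := hv
      rcases h2 with ⟨h1, h2⟩ | h2
      · subst h1
        exact ⟨y, rfl, lw_low h2⟩
      · exfalso
        obtain ⟨-, -, -, c, p, q, -, ⟨-, h3⟩, -⟩ := h2
        apply hb
        rw [← h3]
        exact (e (c, p)).2.2.2
    · exfalso
      obtain ⟨-, -, p, ⟨-, h3⟩, -⟩ : FY e β x.1 y := hv
      apply hb
      rw [← h3]
      exact (e (y.2.2.2, p)).2.2.2
    · exact (show False from hv).elim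
  have h1 : ((oGraph e s M N m).neighborFinset (.inr (.inl (β, x)))).card ≤
      ((Finset.univ : Finset (Fin k)).image (psi t x.1)).card := by
    refine Finset.card_le_card_of_injOn oraw ?_ ?_
    · intro v hv
      rw [Finset.mem_coe] at hv
      rw [Finset.mem_coe, Finset.mem_image]
      rcases key v hv with ⟨i, rfl, h2⟩ | ⟨y, rfl, h2⟩
      · obtain ⟨c, hc⟩ := raw_mem (N := 1) (m := 0) (0 : Fin 1) x (.inl i) h2
        exact ⟨c, Finset.mem_univ _, hc⟩
      · obtain ⟨c, hc⟩ := raw_mem (N := 1) (m := 0) (0 : Fin 1) x (.inr (.inl (0, y))) ⟨rfl, h2⟩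
        exact ⟨c, Finset.mem_univ _, hc⟩
    · intro v hv v' hv' he
      rw [Finset.mem_coe] at hv hv'
      rcases key v hv with ⟨i, rfl, h2⟩ | ⟨y, rfl, h2⟩ <;>
        rcases key v' hv' with ⟨i', rfl, h2'⟩ | ⟨y', rfl, h2'⟩
      · simp only [oraw, Sum.inl.injEq] at he
        rw [he]
      · simp [oraw] at he
      · simp [oraw] at he
      · simp only [oraw, Sum.inl.injEq, Sum.inr.injEq] at he
        rw [Subtype.ext he]
  refine h1.trans (Finset.card_image_le.trans ?_)
  rw [Finset.card_univ, Fintype.card_fin]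

private theorem degree_bot (hk : k + 1 = g + s) (hg : 1 ≤ g) (hs : 2 ≤ s) (ht : 2 ≤ t)
    (β : BI s M L N)
    (x : {x // x ∈ blk k t}) (hb : Bot t x.1) :
    (oGraph e s M N m).degree (.inr (.inl (β, x))) ≤ k := by
  obtain ⟨⟨c, p⟩, hcp⟩ := e.surjective (β.2.2.2, ⟨x.1, x.2, hb⟩)
  have hx0 : (e (c, p)).1 = β.2.2.2 := by rw [hcp]
  have hx : (e (c, p)).2.1 = x.1 := by rw [hcp]
  have hinj : ∀ c' p', (e (c', p')).1 = β.2.2.2 → (e (c', p')).2.1 = x.1 → c' = c ∧ p' = p := by
    intro c' p' h0 h1
    have h2 : e (c', p') = e (c, p) :=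
      Prod.ext (h0.trans hx0.symm) (Subtype.ext (h1.trans hx.symm))
    have h3 := e.injective h2
    rw [Prod.mk.injEq] at h3
    exact h3
  rw [← SimpleGraph.card_neighborFinset_eq_degree]
  set A : Finset (Fin k ⊕ XX k t s nC M L N m) := Finset.univ.filter fun v =>
    ∃ y : {x // x ∈ blk k t}, v = .inr (.inl (β, y)) ∧ lw t x.1 y.1 with hA
  set B : Finset (Fin k ⊕ XX k t s nC M L N m) := ((Finset.univ : Finset (Fin g)).erase p).image
    fun q => .inr (.inl ((β.1, β.2.1, β.2.2.1, (e (c, q)).1),
      ⟨(e (c, q)).2.1, (e (c, q)).2.2.1⟩)) with hB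
  set C : Finset (Fin k ⊕ XX k t s nC M L N m) := (Finset.univ : Finset (Fin (s - 2))).image
    fun j => .inr (.inr (.inl ((β.1, β.2.1), (j, β.2.2.1 - ((j.val : ZMod M) + 1) *
      (p.val : ZMod M), c)))) with hC
  have hsub : (oGraph e s M N m).neighborFinset (.inr (.inl (β, x))) ⊆ A ∪ (B ∪ C) := by
    intro v hv
    rw [SimpleGraph.mem_neighborFinset] at hv
    rw [Finset.mem_union, Finset.mem_union]
    rcases v with i | ⟨β', y⟩ | y | z
    · exfalso
      have h1 : x.1.2.2 = [] := hv.2
      have h2 := hb.2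
      rw [h1] at h2
      simp at h2
      omega
    · have h2 : (β = β' ∧ lw t x.1 y.1) ∨ PE e β β' x.1 y.1 := hv
      rcases h2 with ⟨h1, h2⟩ | h2
      · subst h1
        left
        rw [hA, Finset.mem_filter]
        exact ⟨Finset.mem_univ _, y, rfl, h2⟩
      · right
        left
        obtain ⟨a1, a2, a3, c', p', q, h3, ⟨h4, h4'⟩, h5, h5'⟩ := h2
        obtain ⟨h6, h7⟩ := hinj c' p' h4 h4'
        subst h6
        subst h7
        rw [hB, Finset.mem_image]
        refine ⟨q, Finset.mem_erase.2 ⟨h3.symm, Finset.mem_univ _⟩, ?_⟩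
        have h8 : (⟨(e (c', q)).2.1, (e (c', q)).2.2.1⟩ : {x // x ∈ blk k t}) = y :=
          Subtype.ext h5'
        rw [h8, h5, a1, a2, a3]
    · right
      right
      obtain ⟨h1, h2, p', ⟨h3, h3'⟩, h4⟩ : FY e β x.1 y := hv
      obtain ⟨⟨y1, y2⟩, y3, y4, y5⟩ := y
      simp only at h1 h2 h3 h3' h4
      obtain ⟨h6, h7⟩ := hinj _ _ h3 h3'
      subst h6
      subst h7
      rw [hC, Finset.mem_image]
      refine ⟨y3, Finset.mem_univ _, ?_⟩
      rw [h4, h1, h2, add_sub_cancel_right]
    · exact (show False from hv).elim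
  have cA : A.card ≤ 2 := by
    have h1 : A.card ≤ ({.inr (.inl (x.1.1, x.1.2.1, x.1.2.2.tail)),
        .inr (.inl (nx t (x.1.2.2.headD x.1.1) x.1))} : Finset (Fin k ⊕ (TV k ⊕ Unit))).card := by
      refine Finset.card_le_card_of_injOn oraw ?_ ?_
      · intro v hv
        rw [Finset.mem_coe, hA, Finset.mem_filter] at hv
        obtain ⟨-, y, rfl, h2⟩ := hv
        rw [Finset.mem_coe, Finset.mem_insert, Finset.mem_singleton]
        rcases bot_lw (mem_blk.1 x.2) hb (mem_blk.1 y.2) ht h2 with h3 | h3
        · left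
          simp only [oraw]
          rw [h3]
        · right
          simp only [oraw]
          rw [h3]
      · intro v hv v' hv' he
        rw [Finset.mem_coe, hA, Finset.mem_filter] at hv hv'
        obtain ⟨-, y, rfl, -⟩ := hv
        obtain ⟨-, y', rfl, -⟩ := hv'
        simp only [oraw, Sum.inl.injEq, Sum.inr.injEq] at he
        rw [Subtype.ext he]
    exact h1.trans Finset.card_le_two
  have cB : B.card ≤ g - 1 := by
    refine Finset.card_image_le.trans ?_
    rw [Finset.card_erase_of_mem (Finset.mem_univ _), Finset.card_univ, Fintype.card_fin]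
  have cC : C.card ≤ s - 2 := by
    refine Finset.card_image_le.trans ?_
    rw [Finset.card_univ, Fintype.card_fin]
  have h2 := Finset.card_le_card hsub
  have h3 := Finset.card_union_le A (B ∪ C)
  have h4 := Finset.card_union_le B C
  omega

private theorem degree_new (hk : k + 1 = g + s) (hs : 2 ≤ s) (y : YY s nC M N) :
    (oGraph e s M N m).degree (.inr (.inr (.inl y))) ≤ k := by
  rw [← SimpleGraph.card_neighborFinset_eq_degree]
  set B : Finset (Fin k ⊕ XX k t s nC M L N m) := (Finset.univ : Finset (Fin g)).image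
    fun p => .inr (.inl ((y.1.1, y.1.2, y.2.2.1 + ((y.2.1.val : ZMod M) + 1) * (p.val : ZMod M),
      (e (y.2.2.2, p)).1), ⟨(e (y.2.2.2, p)).2.1, (e (y.2.2.2, p)).2.2.1⟩)) with hB
  set C : Finset (Fin k ⊕ XX k t s nC M L N m) := ((Finset.univ : Finset (Fin s)).erase
    y.1.2).image fun γ => .inr (.inr (.inl ((y.1.1, γ), y.2))) with hC
  have hsub : (oGraph e s M N m).neighborFinset (.inr (.inr (.inl y))) ⊆ B ∪ C := by
    intro v hv
    rw [SimpleGraph.mem_neighborFinset] at hv
    rw [Finset.mem_union]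
    rcases v with i | ⟨β', x⟩ | z | z
    · exact (show False from hv).elim
    · left
      obtain ⟨h1, h2, p, ⟨h3, h3'⟩, h4⟩ : FY e β' x.1 y := hv
      rw [hB, Finset.mem_image]
      refine ⟨p, Finset.mem_univ _, ?_⟩
      have h5 : (⟨(e (y.2.2.2, p)).2.1, (e (y.2.2.2, p)).2.2.1⟩ : {x // x ∈ blk k t}) = x :=
        Subtype.ext h3'
      rw [h5, h3, ← h4, ← h1, ← h2]
    · right
      obtain ⟨h1, h2, h3⟩ : y.1.1 = z.1.1 ∧ y.1.2 ≠ z.1.2 ∧ y.2 = z.2 := hv
      rw [hC, Finset.mem_image]
      refine ⟨z.1.2, Finset.mem_erase.2 ⟨h2.symm, Finset.mem_univ _⟩, ?_⟩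
      rw [h1, h3]
    · exact (show False from hv).elim
  have cB : B.card ≤ g := by
    refine Finset.card_image_le.trans ?_
    rw [Finset.card_univ, Fintype.card_fin]
  have cC : C.card ≤ s - 1 := by
    refine Finset.card_image_le.trans ?_
    rw [Finset.card_erase_of_mem (Finset.mem_univ _), Finset.card_univ, Fintype.card_fin]
  have h2 := Finset.card_le_card hsub
  have h3 := Finset.card_union_le B C
  omega

private theorem degree_left (z : Fin m) :
    (oGraph e s M N m).degree (.inr (.inr (.inr z))) ≤ k := by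
  rw [← SimpleGraph.card_neighborFinset_eq_degree]
  have h1 : ((oGraph e s M N m).neighborFinset (.inr (.inr (.inr z)))).card ≤
      ((Finset.univ : Finset (Fin k)).image
        (Sum.inl : Fin k → Fin k ⊕ XX k t s nC M L N m)).card := by
    refine Finset.card_le_card ?_
    intro v hv
    rw [SimpleGraph.mem_neighborFinset] at hv
    rw [Finset.mem_image]
    rcases v with i | y | f | f
    · exact ⟨i, Finset.mem_univ _, rfl⟩
    · exact (show False from hv).elim
    · exact (show False from hv).elim
    · exact (show False from hv).elim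
  refine h1.trans (Finset.card_image_le.trans ?_)
  rw [Finset.card_univ, Fintype.card_fin]

/-- the data of a neighbour of a hub -/
private def ohraw : (Fin k ⊕ XX k t s nC M L N m) → Option (Fin k ⊕ ((BI s M L N × Bool) ⊕ Fin m))
  | .inl i => some (.inl i)
  | .inr (.inl y) => some (.inr (.inl (y.1, y.2.1.2.1)))
  | .inr (.inr (.inl _)) => none
  | .inr (.inr (.inr z)) => some (.inr (.inr z))

private theorem degree_hub (i : Fin k) :
    (oGraph e s M N m).degree (.inl i) ≤ k + (2 * (N * (s * (M * L))) + m) := by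
  rw [← SimpleGraph.card_neighborFinset_eq_degree]
  have h1 : ((oGraph e s M N m).neighborFinset (.inl i)).card ≤
      ((Finset.univ : Finset (Fin k ⊕ ((BI s M L N × Bool) ⊕ Fin m))).image some).card := by
    refine Finset.card_le_card_of_injOn ohraw ?_ ?_
    · intro v hv
      rw [Finset.mem_coe, SimpleGraph.mem_neighborFinset] at hv
      rw [Finset.mem_coe, Finset.mem_image]
      rcases v with j | y | y | z
      · exact ⟨_, Finset.mem_univ _, rfl⟩
      · exact ⟨_, Finset.mem_univ _, rfl⟩
      · exact (show False from hv).elim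
      · exact ⟨_, Finset.mem_univ _, rfl⟩
    · intro v hv v' hv' he
      rw [Finset.mem_coe, SimpleGraph.mem_neighborFinset] at hv hv'
      rcases v with j | ⟨β1, ⟨a, ε, w⟩, hy⟩ | f | f <;>
        rcases v' with j' | ⟨β1', ⟨a', ε', w'⟩, hy'⟩ | f' | f'
      · simp only [ohraw, Option.some.injEq, Sum.inl.injEq] at he
        rw [he]
      · simp [ohraw] at he
      · exact (show False from hv').elim
      · simp [ohraw] at he
      · simp [ohraw] at he
      · obtain ⟨h1, h2⟩ : a = i ∧ w = [] := hv
        obtain ⟨h1', h2'⟩ : a' = i ∧ w' = [] := hv'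
        have h3 : β1 = β1' ∧ ε = ε' := by simpa [ohraw] using he
        obtain ⟨h3, h4⟩ := h3
        subst h1
        subst h1'
        subst h2
        subst h2'
        subst h3
        subst h4
        rfl
      · exact (show False from hv').elim
      · simp [ohraw] at he
      · exact (show False from hv).elim
      · exact (show False from hv).elim
      · exact (show False from hv).elim
      · exact (show False from hv).elim
      · simp [ohraw] at he
      · simp [ohraw] at he
      · exact (show False from hv').elim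
      · have h3 : f = f' := by simpa [ohraw] using he
        rw [h3]
  refine h1.trans (Finset.card_image_le.trans ?_)
  simp only [Finset.card_univ, Fintype.card_sum, Fintype.card_prod, Fintype.card_fin,
    Fintype.card_bool, ZMod.card]
  omega

end deg

theorem oGraph_edges [NeZero M] (e : Fin nC × Fin g ≃ Fin L × BT k t) (hk : k + 1 = g + s)
    (hg : 1 ≤ g) (hs : 2 ≤ s) (ht : 2 ≤ t) : 2 * (oGraph e s M N m).edgeSet.ncard ≤
    k * (N * (s * (M * L)) * (blk k t).card + N * s * ((s - 2) * (M * nC)) + m + k) +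
      2 * k * (N * (s * (M * L))) + k * m := by
  classical
  have h1 := (oGraph e s M N m).sum_degrees_eq_twice_card_edges
  have h2 : (oGraph e s M N m).edgeSet.ncard = (oGraph e s M N m).edgeFinset.card := by
    rw [← SimpleGraph.coe_edgeFinset, Set.ncard_coe_finset]
  rw [h2, ← h1, Fintype.sum_sum_type, Fintype.sum_sum_type, Fintype.sum_sum_type]
  have a1 : ∑ i : Fin k, (oGraph e s M N m).degree (.inl i) ≤
      k * (k + (2 * (N * (s * (M * L))) + m)) := by
    refine (Finset.sum_le_card_nsmul _ _ _ (fun i _ => degree_hub e i)).trans ?_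
    rw [Finset.card_univ, Fintype.card_fin, smul_eq_mul]
  have a2 : ∑ y : BI s M L N × {x // x ∈ blk k t}, (oGraph e s M N m).degree (.inr (.inl y)) ≤
      (N * (s * (M * L)) * (blk k t).card) * k := by
    refine (Finset.sum_le_card_nsmul _ _ k (fun y _ => ?_)).trans ?_
    · by_cases hb : Bot t y.2.1
      · exact degree_bot e hk hg hs ht y.1 y.2 hb
      · exact degree_nonbot e y.1 y.2 hb
    · simp only [Finset.card_univ, Fintype.card_prod, Fintype.card_fin, Fintype.card_coe,
        smul_eq_mul, ZMod.card]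
      exact le_refl _
  have a3 : ∑ y : YY s nC M N, (oGraph e s M N m).degree (.inr (.inr (.inl y))) ≤
      (N * s * ((s - 2) * (M * nC))) * k := by
    refine (Finset.sum_le_card_nsmul _ _ k (fun y _ => degree_new e hk hs y)).trans ?_
    simp only [Finset.card_univ, Fintype.card_prod, Fintype.card_fin, smul_eq_mul, ZMod.card]
    exact le_refl _
  have a4 : ∑ z : Fin m, (oGraph e s M N m).degree (.inr (.inr (.inr z))) ≤ m * k := by
    refine (Finset.sum_le_card_nsmul _ _ _ (fun z _ => degree_left e z)).trans ?_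
    rw [Finset.card_univ, Fintype.card_fin, smul_eq_mul]
  refine (Nat.add_le_add a1 (Nat.add_le_add a2 (Nat.add_le_add a3 a4))).trans (le_of_eq ?_)
  ring

end Pool.Agent.FTH
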