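import Pool.Agent.FTH.Defs

/-!
# Indexing of the bottom vertices of `L` blocks by (clique, position), all `k`

PROOF. `g = ⌈k / 2⌉`.  Cliques: permutations `σ` of `Fin k`; position `p < g`: the ordered pair
`(σ (2 p mod k), σ ((2 p + 1) mod k))` (different, as `k ≥ 2`).  Every label `i = σ j` occurs: `p = j / 2`.  The group `Perm (Fin k)` acts (`σ ↦ τ ∘ σ`) and
is transitive on the ordered pairs of different elements, so every ordered pair occurs the same number `L` of times among the `(σ, p)`: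
`Perm (Fin k) × Fin g ≃ Fin L × {x : Fin k × Fin k // x.1 ≠ x.2}`.  And `BT k t ≃ {x // x.1 ≠ x.2} × Fin n0` (label pair (colour, head of the word))
as in `Pool.Agent.FTG.exists_design` (file FTG/Design, helper70).  `nC = card (Perm (Fin k)) * n0`.
-/

set_option autoImplicit false

namespace Pool.Agent.FTH

open Pool.Agent.FTD

variable {k t : ℕ}

/-- action of a permutation on tree vertices -/
private def act (σ : Equiv.Perm (Fin k)) (x : TV k) : TV k := (σ x.1, x.2.1, x.2.2.map σ)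

private theorem act_symm (σ : Equiv.Perm (Fin k)) (x : TV k) : act σ.symm (act σ x) = x := by
  obtain ⟨a, ε, l⟩ := x
  simp [act, List.map_map]

private theorem act_mem (σ : Equiv.Perm (Fin k)) {x : TV k} (hx : x ∈ blk k t ∧ Bot t x) :
    act σ x ∈ blk k t ∧ Bot t (act σ x) := by
  obtain ⟨h1, h2, h3⟩ := hx
  rw [mem_blk] at h1 ⊢
  obtain ⟨a, ε, l⟩ := x
  obtain ⟨h4, h5, h6⟩ := h1
  simp only [act, Bot, Blk] at *
  refine ⟨⟨?_, ok_map σ.injective h5, ?_⟩, h2, ?_⟩
  · intro y hy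
    rw [List.mem_map] at hy
    obtain ⟨z, hz, rfl⟩ := hy
    exact fun h => h4 z hz (σ.injective h)
  · rw [List.length_map]
    exact h6
  · rw [List.length_map]
    exact h3

private theorem head_ne (ht : 2 ≤ t) {x : TV k} (hx : x ∈ blk k t ∧ Bot t x) :
    x.2.2.head? = some (x.2.2.headD x.1) ∧ x.1 ≠ x.2.2.headD x.1 := by
  obtain ⟨h1, h2, h3⟩ := hx
  rw [mem_blk] at h1
  obtain ⟨a, ε, l⟩ := x
  cases l with
  | nil =>
    simp at h3
    omega
  | cons b l =>
    refine ⟨rfl, ?_⟩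
    exact fun h => h1.1 b (by simp) h.symm

/-- the label pair of a bottom vertex -/
private def lpair (ht : 2 ≤ t) (x : BT k t) : {q : Fin k × Fin k // q.1 ≠ q.2} :=
  ⟨(x.1.1, x.1.2.2.headD x.1.1), (head_ne ht x.2).2⟩

private theorem exists_perm {a b a' b' : Fin k} (h : a ≠ b) (h' : a' ≠ b') :
    ∃ σ : Equiv.Perm (Fin k), σ a = a' ∧ σ b = b' := by
  refine ⟨Equiv.swap (Equiv.swap a a' b) b' * Equiv.swap a a', ?_, ?_⟩
  · rw [Equiv.Perm.mul_apply, Equiv.swap_apply_left]
    apply Equiv.swap_apply_of_ne_of_ne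
    · intro h1
      have h2 : Equiv.swap a a' a = Equiv.swap a a' b := by
        rw [Equiv.swap_apply_left]
        exact h1
      exact h ((Equiv.swap a a').injective h2)
    · exact h'
  · rw [Equiv.Perm.mul_apply, Equiv.swap_apply_left]

private theorem lpair_act (ht : 2 ≤ t) (σ : Equiv.Perm (Fin k)) (x : BT k t) :
    (lpair ht ⟨act σ x.1, act_mem σ x.2⟩).1 = (σ (lpair ht x).1.1, σ (lpair ht x).1.2) := by
  obtain ⟨⟨a, ε, l⟩, hx⟩ := x
  cases l with
  | nil => rfl
  | cons b l => rfl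

private theorem fib_card (ht : 2 ≤ t) (q q' : {q : Fin k × Fin k // q.1 ≠ q.2}) :
    Nat.card {x : BT k t // lpair ht x = q} = Nat.card {x : BT k t // lpair ht x = q'} := by
  obtain ⟨σ, h1, h2⟩ := exists_perm q.2 q'.2
  refine Nat.card_congr
    { toFun := fun x => ⟨⟨act σ x.1.1, act_mem σ x.1.2⟩, ?_⟩
      invFun := fun x => ⟨⟨act σ.symm x.1.1, act_mem σ.symm x.1.2⟩, ?_⟩
      left_inv := ?_
      right_inv := ?_ }
  · apply Subtype.ext
    rw [lpair_act, x.2]
    exact Prod.ext h1 h2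
  · apply Subtype.ext
    rw [lpair_act, x.2]
    refine Prod.ext ?_ ?_
    · show σ.symm q'.1.1 = q.1.1
      rw [← h1, Equiv.symm_apply_apply]
    · show σ.symm q'.1.2 = q.1.2
      rw [← h2, Equiv.symm_apply_apply]
  · intro x
    apply Subtype.ext
    apply Subtype.ext
    exact act_symm σ x.1.1
  · intro x
    apply Subtype.ext
    apply Subtype.ext
    exact act_symm σ.symm x.1.1

private instance : Finite (BT k t) := by
  have : (↑{x : TV k | x ∈ blk k t ∧ Bot t x} : Set (TV k)).Finite :=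
    (blk k t).finite_toSet.subset fun x hx => hx.1
  exact this.to_subtype

/-- the pair of labels number `p` of a permutation -/
private def pr {g : ℕ} (hk : 2 ≤ k) (x : Equiv.Perm (Fin k) × Fin g) :
    {q : Fin k × Fin k // q.1 ≠ q.2} :=
  ⟨(x.1 ⟨(2 * x.2.val) % k, Nat.mod_lt _ (by omega)⟩,
    x.1 ⟨(2 * x.2.val + 1) % k, Nat.mod_lt _ (by omega)⟩), by
    intro h
    have h1 := x.1.injective h
    rw [Fin.mk.injEq] at h1
    have h2 : (2 * x.2.val + 1) % k = 2 * x.2.val % k + 1 ∨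
        ((2 * x.2.val + 1) % k = 0 ∧ 2 * x.2.val % k + 1 = k) := by
      have h3 := Nat.mod_lt (2 * x.2.val) (show 0 < k by omega)
      rw [Nat.add_mod, Nat.mod_eq_of_lt (show 1 < k by omega)]
      rcases Nat.lt_or_ge (2 * x.2.val % k + 1) k with h4 | h4
      · left
        exact Nat.mod_eq_of_lt h4
      · right
        have h5 : 2 * x.2.val % k + 1 = k := by omega
        rw [h5]
        exact ⟨Nat.mod_self k, rfl⟩
    omega⟩

private theorem pr_mul {g : ℕ} (hk : 2 ≤ k) (τ σ : Equiv.Perm (Fin k)) (p : Fin g) :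
    (pr hk (τ * σ, p)).1 = (τ (pr hk (σ, p)).1.1, τ (pr hk (σ, p)).1.2) := rfl

private theorem pr_card {g : ℕ} (hk : 2 ≤ k) (q q' : {q : Fin k × Fin k // q.1 ≠ q.2}) :
    Nat.card {x : Equiv.Perm (Fin k) × Fin g // pr hk x = q} =
      Nat.card {x : Equiv.Perm (Fin k) × Fin g // pr hk x = q'} := by
  obtain ⟨τ, h1, h2⟩ := exists_perm q.2 q'.2
  refine Nat.card_congr
    { toFun := fun x => ⟨(τ * x.1.1, x.1.2), ?_⟩
      invFun := fun x => ⟨(τ⁻¹ * x.1.1, x.1.2), ?_⟩
      left_inv := ?_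
      right_inv := ?_ }
  · apply Subtype.ext
    rw [pr_mul, x.2]
    exact Prod.ext h1 h2
  · apply Subtype.ext
    rw [pr_mul, x.2]
    refine Prod.ext ?_ ?_
    · show τ⁻¹ q'.1.1 = q.1.1
      rw [← h1]
      exact τ.symm_apply_apply _
    · show τ⁻¹ q'.1.2 = q.1.2
      rw [← h2]
      exact τ.symm_apply_apply _
  · intro x
    apply Subtype.ext
    refine Prod.ext ?_ rfl
    show τ⁻¹ * (τ * x.1.1) = x.1.1
    rw [inv_mul_cancel_left]
  · intro x
    apply Subtype.ext
    refine Prod.ext ?_ rfl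
    show τ * (τ⁻¹ * x.1.1) = x.1.1
    rw [mul_inv_cancel_left]

theorem exists_design {k t g : ℕ} (hk : 2 ≤ k) (hg : k ≤ 2 * g) (hg2 : 2 * g ≤ k + 1)
    (ht : 2 ≤ t) : ∃ (L nC : ℕ) (e : Fin nC × Fin g ≃ Fin L × BT k t), 1 ≤ L ∧
      ∀ c i, ∃ p, Lab (e (c, p)).2.1 i := by
  let P := {q : Fin k × Fin k // q.1 ≠ q.2}
  let x0 : Equiv.Perm (Fin k) × Fin g := (1, ⟨0, by omega⟩)
  let q0 : P := pr hk x0
  let n0 : ℕ := Nat.card {x : BT k t // lpair ht x = q0}
  let F : ∀ q : P, {x : BT k t // lpair ht x = q} ≃ Fin n0 := fun q =>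
    Finite.equivFinOfCardEq (fib_card ht q q0)
  let L : ℕ := Nat.card {x : Equiv.Perm (Fin k) × Fin g // pr hk x = q0}
  let F' : ∀ q : P, {x : Equiv.Perm (Fin k) × Fin g // pr hk x = q} ≃ Fin L := fun q =>
    Finite.equivFinOfCardEq (pr_card hk q q0)
  let C := Equiv.Perm (Fin k) × Fin n0
  let nC : ℕ := Nat.card C
  let E6 : C ≃ Fin nC := Finite.equivFin C
  -- permutations and positions
  let G1 : Equiv.Perm (Fin k) × Fin g ≃ P × Fin L :=
    (Equiv.sigmaFiberEquiv (pr hk)).symm.trans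
      ((Equiv.sigmaCongrRight F').trans (Equiv.sigmaEquivProd P (Fin L)))
  have hG1 : ∀ x, (G1 x).1 = pr hk x := fun x => rfl
  -- bottom vertices
  let G2 : P × Fin n0 ≃ BT k t := (Equiv.sigmaEquivProd P (Fin n0)).symm.trans
    ((Equiv.sigmaCongrRight (fun q => (F q).symm)).trans (Equiv.sigmaFiberEquiv (lpair ht)))
  have hG2 : ∀ q i, lpair ht (G2 (q, i)) = q := fun q i => ((F q).symm i).2
  let e : Fin nC × Fin g ≃ Fin L × BT k t :=
    { toFun := fun x => ((G1 ((E6.symm x.1).1, x.2)).2,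
        G2 ((G1 ((E6.symm x.1).1, x.2)).1, (E6.symm x.1).2))
      invFun := fun y => (E6 ((G1.symm ((G2.symm y.2).1, y.1)).1, (G2.symm y.2).2),
        (G1.symm ((G2.symm y.2).1, y.1)).2)
      left_inv := by
        intro x
        simp
      right_inv := by
        intro y
        simp }
  refine ⟨L, nC, e, ?_, fun c i => ?_⟩
  · have : Nonempty {x : Equiv.Perm (Fin k) × Fin g // pr hk x = q0} := ⟨⟨x0, rfl⟩⟩
    exact Nat.card_pos
  · let j : Fin k := (E6.symm c).1.symm i
    have hj := j.2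
    have hp : j.val / 2 < g := by omega
    refine ⟨⟨j.val / 2, hp⟩, ?_⟩
    have h1 : lpair ht (e (c, ⟨j.val / 2, hp⟩)).2 = pr hk ((E6.symm c).1, ⟨j.val / 2, hp⟩) :=
      hG2 _ _
    have h2 : (E6.symm c).1 j = i := Equiv.apply_symm_apply _ _
    rcases Nat.mod_two_eq_zero_or_one j.val with h3 | h3
    · left
      have h4 : (lpair ht (e (c, ⟨j.val / 2, hp⟩)).2).1.1 =
          (E6.symm c).1 ⟨(2 * (j.val / 2)) % k, Nat.mod_lt _ (by omega)⟩ := by
        rw [h1]
        rfl
      have h5 : (⟨(2 * (j.val / 2)) % k, Nat.mod_lt _ (by omega)⟩ : Fin k) = j := by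
        apply Fin.ext
        show (2 * (j.val / 2)) % k = j.val
        rw [show 2 * (j.val / 2) = j.val by omega]
        exact Nat.mod_eq_of_lt hj
      rw [h5, h2] at h4
      exact h4
    · right
      have h4 : (lpair ht (e (c, ⟨j.val / 2, hp⟩)).2).1.2 =
          (E6.symm c).1 ⟨(2 * (j.val / 2) + 1) % k, Nat.mod_lt _ (by omega)⟩ := by
        rw [h1]
        rfl
      have h5 : (⟨(2 * (j.val / 2) + 1) % k, Nat.mod_lt _ (by omega)⟩ : Fin k) = j := by
        apply Fin.ext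
        show (2 * (j.val / 2) + 1) % k = j.val
        rw [show 2 * (j.val / 2) + 1 = j.val by omega]
        exact Nat.mod_eq_of_lt hj
      rw [h5, h2] at h4
      rw [(head_ne ht (e (c, ⟨j.val / 2, hp⟩)).2.2).1]
      exact congrArg some h4

end Pool.Agent.FTH
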