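import Pool.Agent.FTH.Conn
import Pool.Agent.FTH.Deg
import Pool.Agent.FTH.Design
import Pool.Agent.FTD.Upper

/-!
# The upper bound for odd diameters, all `k ≥ 4`
-/

set_option autoImplicit false

namespace Pool.Agent.FTH

open Pool.Agent.Helper68 Pool.Agent.FTD

theorem geom_nat {q : ℕ} (hq : 1 ≤ q) (s : ℕ) :
    (q - 1) * ∑ p ∈ Finset.range s, q ^ p + 1 = q ^ s := by
  induction s with
  | zero => simp
  | succ s ih =>
    rw [Finset.sum_range_succ, Nat.mul_add, pow_succ]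
    obtain ⟨p, rfl⟩ : ∃ p, q = p + 1 := ⟨q - 1, by omega⟩
    simp only [Nat.add_sub_cancel] at ih ⊢
    nlinarith

theorem wd_last {k t : ℕ} (hk : 4 ≤ k) (ht : 2 ≤ t) (a : Fin k) :
    (k - 4) * (k - 1) ^ (t - 1) ≤ (k - 2) * (wd k t a (t - 1)).card := by
  have h1 := count_arith (q := k - 1) (t := t) (by omega) ht
    (fun s => (wd k t a s).card)
    (fun s => cc k t a s) (by simp [wd]) (cc_zero a)
    (fun s _ => card_wd_succ (by omega) a s) (fun s => cc_le a s)
    (fun s hs => cc_bound (by omega) a s hs)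
  have h2 : ∑ p ∈ Finset.range (t - 1), (wd k t a p).card ≤
      ∑ p ∈ Finset.range (t - 1), (k - 1) ^ p :=
    Finset.sum_le_sum fun p _ => card_wd_le (by omega) a p
  have h3 := geom_nat (q := k - 1) (by omega) (t - 1)
  have h4 : ∑ p ∈ Finset.range t, (wd k t a p).card =
      ∑ p ∈ Finset.range (t - 1), (wd k t a p).card + (wd k t a (t - 1)).card := by
    conv_lhs => rw [show t = (t - 1) + 1 by omega]
    rw [Finset.sum_range_succ]
    conv_rhs => rw [show t = (t - 1) + 1 by omega]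
    rw [Nat.add_sub_cancel]
  rw [h4] at h1
  generalize ∑ p ∈ Finset.range (t - 1), (wd k t a p).card = A at *
  generalize ∑ p ∈ Finset.range (t - 1), (k - 1) ^ p = G at *
  generalize (wd k t a (t - 1)).card = W at *
  generalize (k - 1) ^ (t - 1) = Q at *
  obtain ⟨g, rfl⟩ : ∃ g, k = g + 4 := ⟨k - 4, by omega⟩
  have e1 : g + 4 - 2 = g + 2 := by omega
  have e2 : g + 4 - 4 = g := by omega
  have e3 : g + 4 - 1 - 1 = g + 2 := by omega
  rw [e3] at h3
  rw [e1, e2]
  have h5 : (g + 2) * Q ≤ (g + 2) * (A + W + A) := Nat.mul_le_mul_left _ h1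
  have h6 : (g + 2) * A ≤ (g + 2) * G := Nat.mul_le_mul_left _ h2
  nlinarith

theorem card_BT {k t g L nC : ℕ} (ht : 2 ≤ t) (e : Fin nC × Fin g ≃ Fin L × BT k t) :
    L * ∑ a : Fin k, (wd k t a (t - 1)).card ≤ nC * g := by
  classical
  obtain ⟨T, hT⟩ : ∃ T : Finset (TV k), T = (Finset.univ : Finset (Fin k)).biUnion
    (fun a => (wd k t a (t - 1)).image (fun l => ((a, false, l) : TV k))) := ⟨_, rfl⟩
  have hmem : ∀ x ∈ T, x ∈ blk k t ∧ Bot t x := by
    intro x hx
    rw [hT, Finset.mem_biUnion] at hx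
    obtain ⟨a, -, hx⟩ := hx
    rw [Finset.mem_image] at hx
    obtain ⟨l, hl, rfl⟩ := hx
    rw [mem_wd] at hl
    obtain ⟨h1, h2, h3⟩ := hl
    constructor
    · rw [mem_blk]
      refine ⟨h2, h3, ?_⟩
      simp only [Bool.false_eq_true, if_false]
      omega
    · refine ⟨rfl, ?_⟩
      simp only
      omega
  have hcard : T.card = ∑ a : Fin k, (wd k t a (t - 1)).card := by
    rw [hT, Finset.card_biUnion]
    · refine Finset.sum_congr rfl fun a _ => ?_
      refine Finset.card_image_of_injective _ fun l l' hll => ?_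
      simpa using hll
    · intro a _ b _ hab
      simp only [Function.onFun]
      rw [Finset.disjoint_left]
      intro x hx hx'
      rw [Finset.mem_image] at hx hx'
      obtain ⟨l, -, rfl⟩ := hx
      obtain ⟨l', -, h2⟩ := hx'
      exact hab (congrArg Prod.fst h2).symm
  have h1 : ((Finset.univ : Finset (Fin L)) ×ˢ T.attach).card ≤
      (Finset.univ : Finset (Fin nC × Fin g)).card := by
    refine Finset.card_le_card_of_injOn (fun x => e.symm (x.1, ⟨x.2.1, hmem x.2.1 x.2.2⟩))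
      (fun _ _ => Finset.mem_coe.mpr (Finset.mem_univ _)) ?_
    intro x _ y _ hxy
    have h2 := e.symm.injective hxy
    rw [Prod.mk.injEq, Subtype.mk.injEq] at h2
    exact Prod.ext h2.1 (Subtype.ext h2.2)
  rw [Finset.card_product, Finset.card_attach, hcard, Finset.card_univ, Finset.card_univ,
    Fintype.card_prod, Fintype.card_fin, Fintype.card_fin, Fintype.card_fin] at h1
  exact h1

theorem block_size {k t g s L nC M : ℕ} (hk : 4 ≤ k) (ht : 2 ≤ t) (hgs : k + 1 = g + s)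
    (hg : k ≤ 2 * g) (hg2 : 2 * g ≤ k + 1) (e : Fin nC × Fin g ≃ Fin L × BT k t) :
    (k - 2) * (k - 1) ^ (t - 1) * (k * (s * (M * L))) ≤
      g * (s * (M * L) * (blk k t).card + s * ((s - 2) * (M * nC))) := by
  have h1 := le_card_blk (k := k) (t := t) (by omega) ht
  have h2 := card_BT ht e
  have h3 : k * ((k - 4) * (k - 1) ^ (t - 1)) ≤
      (k - 2) * ∑ a : Fin k, (wd k t a (t - 1)).card := by
    have h4 := Finset.card_nsmul_le_sum (Finset.univ : Finset (Fin k))
      (fun a => (k - 2) * (wd k t a (t - 1)).card) _ (fun a _ => wd_last hk ht a)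
    rw [Finset.card_univ, Fintype.card_fin, smul_eq_mul, ← Finset.mul_sum] at h4
    exact h4
  generalize (blk k t).card = b at *
  generalize (k - 1) ^ (t - 1) = Q at *
  generalize ∑ a : Fin k, (wd k t a (t - 1)).card = F at *
  obtain ⟨c, rfl⟩ : ∃ c, k = c + 4 := ⟨k - 4, by omega⟩
  obtain ⟨u, rfl⟩ : ∃ u, s = u + 2 := ⟨s - 2, by omega⟩
  have e1 : c + 4 - 2 = c + 2 := by omega
  have e2 : c + 4 - 4 = c := by omega
  have e3 : u + 2 - 2 = u := by omega
  rw [e1, e2] at h3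
  rw [e1, e3]
  -- multiply by `k - 2`
  have hc : 0 < c + 2 := by omega
  refine Nat.le_of_mul_le_mul_left ?_ hc
  have h5 : (c + 2) * (c + 2) ≤ (c + 2) * g + u * c := by
    have h6 : u + g = c + 3 := by omega
    have h7 : u * c + g * c = (c + 3) * c := by rw [← Nat.add_mul, h6]
    nlinarith
  have h6 : (c + 2) * (c + 2) * ((c + 4) * Q) ≤ (c + 2) * (g * b + u * F) := by
    calc (c + 2) * (c + 2) * ((c + 4) * Q) ≤ ((c + 2) * g + u * c) * ((c + 4) * Q) :=
          Nat.mul_le_mul_right _ h5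
      _ = (c + 2) * g * ((c + 4) * Q) + u * ((c + 4) * (c * Q)) := by ring
      _ ≤ (c + 2) * g * b + u * ((c + 2) * F) :=
          Nat.add_le_add (Nat.mul_le_mul_left _ h1) (Nat.mul_le_mul_left _ h3)
      _ = _ := by ring
  calc (c + 2) * ((c + 2) * Q * ((c + 4) * ((u + 2) * (M * L)))) =
        (u + 2) * M * L * ((c + 2) * (c + 2) * ((c + 4) * Q)) := by ring
    _ ≤ (u + 2) * M * L * ((c + 2) * (g * b + u * F)) := Nat.mul_le_mul_left _ h6
    _ = (c + 2) * (g * ((u + 2) * (M * L) * b)) + (c + 2) * ((u + 2) * (u * M)) * (L * F) := by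
        ring
    _ ≤ (c + 2) * (g * ((u + 2) * (M * L) * b)) + (c + 2) * ((u + 2) * (u * M)) * (nC * g) :=
        Nat.add_le_add_left (Nat.mul_le_mul_left _ h2) _
    _ = _ := by ring

theorem fhat_upper_odd {k t : ℕ} (hk : 4 ≤ k) (ht : 2 ≤ t) : ∃ K : ℕ, ∀ n, k ≤ n →
    ((k - 2) * (k - 1) ^ (t - 1)) * (2 * fhat n (2 * t + 3) k) ≤
      ((k - 2) * (k - 1) ^ (t - 1)) * (k * n) + 2 * ((k + 1) / 2) * n + K := by
  classical
  obtain ⟨g, hg⟩ : ∃ g, g = (k + 1) / 2 := ⟨_, rfl⟩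
  obtain ⟨s, hs⟩ : ∃ s, s = k + 1 - g := ⟨_, rfl⟩
  have hgs : k + 1 = g + s := by omega
  have hg1 : k ≤ 2 * g := by omega
  have hg2 : 2 * g ≤ k + 1 := by omega
  rw [← hg]
  obtain ⟨L, nC, e, hL, hcov⟩ := exists_design (k := k) (t := t) (g := g) (by omega) hg1 hg2 ht
  obtain ⟨M, hM1, hM2⟩ := Nat.exists_infinite_primes (k + 1)
  have : Fact M.Prime := ⟨hM2⟩
  have hM0 : 0 < M := hM2.pos
  obtain ⟨K0, hK0⟩ : ∃ K0, K0 = s * (M * L) * (blk k t).card +
    s * ((s - 2) * (M * nC)) := ⟨_, rfl⟩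
  obtain ⟨P, hP⟩ : ∃ P, P = (k - 2) * (k - 1) ^ (t - 1) := ⟨_, rfl⟩
  have hsize := block_size (M := M) hk ht hgs hg1 hg2 e
  rw [← hK0, ← hP] at hsize
  rw [← hP]
  have hb := le_card_blk (k := k) (t := t) (by omega) ht
  have hK : 0 < K0 := by
    have h1 : 0 < (blk k t).card :=
      lt_of_lt_of_le (Nat.mul_pos (by omega) (Nat.pow_pos (by omega))) hb
    have h2 : 0 < s * (M * L) * (blk k t).card :=
      Nat.mul_pos (Nat.mul_pos (by omega) (Nat.mul_pos hM0 hL)) h1
    omega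
  refine ⟨P * (k * K0), fun n hn => ?_⟩
  have hdiv := Nat.div_add_mod (n - k) K0
  have hmod := Nat.mod_lt (n - k) hK
  generalize hN : (n - k) / K0 = N at *
  generalize hm : (n - k) % K0 = m at *
  have hn' : n = k + (K0 * N + m) := by omega
  have hcard : Fintype.card (Fin k ⊕ XX k t s nC M L N m) = n := by
    rw [hn', hK0]
    simp only [Fintype.card_sum, Fintype.card_prod, Fintype.card_fin, ZMod.card, Fintype.card_coe]
    ring
  have h1 := fhat_le (d := 2 * t + 3) (k := k) (m := (oGraph e s M N m).edgeSet.ncard) hcard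
    (oGraph_conn hgs hg1 hg2 hk ht (by omega) hcov) (le_refl _)
  have h2 := oGraph_edges (M := M) (N := N) (m := m) e hgs (by omega) (by omega) ht
  generalize (oGraph e s M N m).edgeSet.ncard = E at h1 h2
  generalize fhat n (2 * t + 3) k = f at h1 ⊢
  have h3 : 2 * f ≤ k * n + 2 * k * (N * (s * (M * L))) + k * m := by
    have h4 : k * (N * (s * (M * L)) * (blk k t).card +
        N * s * ((s - 2) * (M * nC)) + m + k) = k * n := by
      rw [hn', hK0]
      ring
    omega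
  have h5 : P * (2 * k * (N * (s * (M * L)))) ≤ 2 * g * n := by
    have h6 := Nat.mul_le_mul_left (2 * N) hsize
    have h7 : 2 * N * (g * K0) ≤ 2 * g * n := by
      have h8 : 2 * g * (K0 * N) ≤ 2 * g * n := Nat.mul_le_mul_left _ (by omega)
      calc 2 * N * (g * K0) = 2 * g * (K0 * N) := by ring
        _ ≤ _ := h8
    calc P * (2 * k * (N * (s * (M * L)))) = 2 * N * (P * (k * (s * (M * L)))) := by ring
      _ ≤ _ := h6.trans h7
  have h7 : P * (k * m) ≤ P * (k * K0) :=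
    Nat.mul_le_mul_left _ (Nat.mul_le_mul_left _ hmod.le)
  calc P * (2 * f) ≤ P * (k * n + 2 * k * (N * (s * (M * L))) + k * m) :=
        Nat.mul_le_mul_left _ h3
    _ = P * (k * n) + P * (2 * k * (N * (s * (M * L)))) + P * (k * m) := by ring
    _ ≤ _ := Nat.add_le_add (Nat.add_le_add_left h5 _) h7

/-- the upper bound -/
theorem limsup_odd {d k : ℕ} (hk : 4 ≤ k) (hd : 7 ≤ d) (hdo : Odd d) :
    Filter.limsup (fun n : ℕ => phihat n d k / n) Filter.atTop ≤
      ((((k + 1) / 2 : ℕ) : ℝ) / ((k : ℝ) - 2)) / ((k : ℝ) - 1) ^ (d / 2 - 2) := by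
  obtain ⟨s, rfl⟩ := hdo
  obtain ⟨t, rfl⟩ : ∃ t, s = t + 1 := ⟨s - 1, by omega⟩
  have e1 : 2 * (t + 1) + 1 = 2 * t + 3 := by ring
  have e2 : (2 * t + 3) / 2 - 2 = t - 1 := by omega
  rw [e1, e2]
  obtain ⟨K, hK⟩ := fhat_upper_odd (k := k) (t := t) hk (by omega)
  obtain ⟨B, hB⟩ : ∃ B, (k - 2) * (k - 1) ^ (t - 1) = B + 1 :=
    ⟨(k - 2) * (k - 1) ^ (t - 1) - 1, by
      have : 0 < (k - 2) * (k - 1) ^ (t - 1) :=
        Nat.mul_pos (by omega) (Nat.pow_pos (by omega))
      omega⟩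
  have h1 := Pool.Agent.FTA.up_lim (d := 2 * t + 3) (k := k) (t := (k + 1) / 2) (B := B)
    (by omega) K (by
    intro n hn
    have h2 := hK n hn
    rw [hB] at h2
    exact h2)
  have h3 : ((B : ℝ) + 1) = ((k : ℝ) - 2) * ((k : ℝ) - 1) ^ (t - 1) := by
    have h4 : ((B + 1 : ℕ) : ℝ) = (((k - 2) * (k - 1) ^ (t - 1) : ℕ) : ℝ) := by rw [hB]
    push_cast at h4
    rw [Nat.cast_sub (by omega), Nat.cast_sub (by omega)] at h4
    push_cast at h4
    exact h4
  rw [h3] at h1
  rw [div_div]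
  exact h1

end Pool.Agent.FTH
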