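import Pool.Agent.FTH.Reach

/-!
# Fault tolerance of the graph for odd diameters
-/

set_option autoImplicit false

namespace Pool.Agent.FTH

open Pool.Agent.Helper68 Pool.Agent.FT6 Pool.Agent.FTD

variable {k t g s nC L M N m : ℕ} {e : Fin nC × Fin g ≃ Fin L × BT k t}

/-- index of `L` blocks -/
abbrev BJ (s M N : ℕ) : Type := Fin N × Fin s × ZMod M

/-- bottom vertex number `(c, p)` of the blocks `β` -/
def bv (e : Fin nC × Fin g ≃ Fin L × BT k t) {s M N : ℕ} (m : ℕ) (β : BJ s M N) (c : Fin nC)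
    (p : Fin g) : Fin k ⊕ XX k t s nC M L N m :=
  .inr (.inl ((β.1, β.2.1, β.2.2, (e (c, p)).1), ⟨(e (c, p)).2.1, (e (c, p)).2.2.1⟩))

/-- new vertex -/
def yv (k t L : ℕ) {s nC M N : ℕ} (m : ℕ) (y : YY s nC M N) : Fin k ⊕ XX k t s nC M L N m :=
  .inr (.inr (.inl y))

/-- the vertex number `p` of a line -/
def ln (e : Fin nC × Fin g ≃ Fin L × BT k t) {s M N : ℕ} (m : ℕ) (w : Fin N × Fin s) (l r : ZMod M)
    (c : Fin nC) (p : Fin g) : Fin k ⊕ XX k t s nC M L N m :=
  bv e m (w.1, w.2, l + r * (p.val : ZMod M)) c p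

theorem bv_inj {β β' : BJ s M N} {c c' : Fin nC} {p p' : Fin g}
    (H : bv e m β c p = bv e m β' c' p') : β = β' ∧ c = c' ∧ p = p' := by
  unfold bv at H
  have h1 := Sum.inl.inj (Sum.inr.inj H)
  simp only [Prod.mk.injEq, Subtype.mk.injEq] at h1
  obtain ⟨⟨a1, a2, a3, a4⟩, a5⟩ := h1
  have h2 := e.injective (Prod.ext a4 (Subtype.ext a5))
  rw [Prod.mk.injEq] at h2
  exact ⟨Prod.ext a1 (Prod.ext a2 a3), h2.1, h2.2⟩

theorem ln_inj {w w' : Fin N × Fin s} {l r l' r' : ZMod M} {c c' : Fin nC} {p p' : Fin g}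
    (H : ln e m w l r c p = ln e m w' l' r' c' p') :
    w = w' ∧ c = c' ∧ p = p' ∧ l + r * (p.val : ZMod M) = l' + r' * (p.val : ZMod M) := by
  obtain ⟨h1, h2, h3⟩ := bv_inj H
  subst h3
  rw [Prod.mk.injEq, Prod.mk.injEq] at h1
  exact ⟨Prod.ext h1.1 h1.2.1, h2, rfl, h1.2.2⟩

theorem adj_PE (β : BJ s M N) (c : Fin nC) {p q : Fin g} (hpq : p ≠ q) :
    (oGraph e s M N m).Adj (bv e m β c p) (bv e m β c q) :=
  Or.inr ⟨rfl, rfl, rfl, c, p, q, hpq, ⟨rfl, rfl⟩, rfl, rfl⟩

theorem adj_FY (w : Fin N × Fin s) (j : Fin (s - 2)) (l : ZMod M) (c : Fin nC) (p : Fin g) :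
    (oGraph e s M N m).Adj (ln e m w l ((j.val : ZMod M) + 1) c p) (yv k t L m (w, (j, l, c))) :=
  ⟨rfl, rfl, p, ⟨rfl, rfl⟩, rfl⟩

theorem adj_YY (n : Fin N) {γ γ' : Fin s} (hγ : γ ≠ γ') (w : Fin (s - 2) × ZMod M × Fin nC) :
    (oGraph e s M N m).Adj (yv k t L m ((n, γ), w)) (yv k t L m ((n, γ'), w)) :=
  ⟨rfl, hγ, rfl⟩

theorem not_IsK_bv (β : BJ s M N) (c : Fin nC) (p : Fin g) (i : Fin k) :
    ¬ IsK i (bv e m β c p) := fun H => H.1 (e (c, p)).2.2.2

theorem not_IsK_yv (y : YY s nC M N) (i : Fin k) : ¬ IsK i (yv k t L m y) := fun H => H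

section S

variable {S : Finset (Fin k ⊕ XX k t s nC M L N m)}

theorem conn1 {u v : Fin k ⊕ XX k t s nC M L N m} (hu : u ∉ S) (hv : v ∉ S)
    (H : (oGraph e s M N m).Adj u v) : Conn (oGraph e s M N m) S 1 u v :=
  (Conn.refl hv).cons hu (Or.inr H)

theorem mem_KK {i : Fin k} : i ∈ KK S ↔ ∀ r ∈ S, ¬ IsK i r := by
  unfold KK
  simp

theorem KK_hub {i : Fin k} (hi : i ∈ KK S) : (.inl i : Fin k ⊕ XX k t s nC M L N m) ∉ S :=
  fun H => mem_KK.mp hi _ H rfl

theorem conn_bv (ht : 2 ≤ t) {β : BJ s M N} {c : Fin nC} {p : Fin g} {i : Fin k} (hi : i ∈ KK S)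
    (hL : Lab (e (c, p)).2.1 i) (hS : bv e m β c p ∉ S) :
    Conn (oGraph e s M N m) S t (bv e m β c p) (.inl i) := by
  refine conn_lab ht _ (e (c, p)).2.2.1 (e (c, p)).2.2.2 hL hS (KK_hub hi) ?_
  intro r hs hsB hsi H
  exact mem_KK.mp hi _ H ⟨hsB, hsi⟩

open Classical in
/-- the positions with a good label -/
noncomputable def Gs (e : Fin nC × Fin g ≃ Fin L × BT k t) (S : Finset (Fin k ⊕ XX k t s nC M L N m))
    (c : Fin nC) : Finset (Fin g) :=
  Finset.univ.filter (fun p => ∃ i ∈ KK S, Lab (e (c, p)).2.1 i)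

theorem mem_Gs {c : Fin nC} {p : Fin g} : p ∈ Gs e S c ↔ ∃ i ∈ KK S, Lab (e (c, p)).2.1 i := by
  unfold Gs
  simp

theorem card_lab (x : TV k) : (Finset.univ.filter (fun i => Lab x i)).card ≤ 2 := by
  classical
  obtain ⟨a, ε, w⟩ := x
  cases w with
  | nil =>
    refine (Finset.card_le_card (t := {a}) ?_).trans (by simp)
    intro i hi
    rw [Finset.mem_filter] at hi
    rcases hi.2 with h1 | h1
    · rw [Finset.mem_singleton]
      exact h1.symm
    · simp at h1
  | cons b w =>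
    refine (Finset.card_le_card (t := {a, b}) ?_).trans Finset.card_le_two
    intro i hi
    rw [Finset.mem_filter] at hi
    rw [Finset.mem_insert, Finset.mem_singleton]
    rcases hi.2 with h1 | h1
    · exact Or.inl h1.symm
    · right
      simp only [List.head?_cons, Option.some.injEq] at h1
      exact h1.symm

theorem cover (hcov : ∀ c i, ∃ p, Lab (e (c, p)).2.1 i) (c : Fin nC) :
    (KK S).card ≤ 2 * (Gs e S c).card := by
  classical
  have h1 : KK S ⊆ (Gs e S c).biUnion (fun p => Finset.univ.filter (fun i => Lab (e (c, p)).2.1 i)) := by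
    intro i hi
    obtain ⟨p, hp⟩ := hcov c i
    rw [Finset.mem_biUnion]
    exact ⟨p, mem_Gs.mpr ⟨i, hi, hp⟩, by simpa using hp⟩
  refine (Finset.card_le_card h1).trans ?_
  rw [mul_comm]
  exact Finset.card_biUnion_le_card_mul _ _ _ (fun p _ => card_lab _)

theorem card_KK_two (ht : 2 ≤ t) {c : Fin nC} {p : Fin g} (hp : p ∉ Gs e S c) :
    (KK S).card + 2 ≤ k := by
  classical
  obtain ⟨hx1, hx2⟩ := (e (c, p)).2.2
  have hp2 : ∀ i ∈ KK S, ¬ Lab (e (c, p)).2.1 i := fun i hi hL => hp (mem_Gs.mpr ⟨i, hi, hL⟩)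
  generalize (e (c, p)).2.1 = x at hx1 hx2 hp2
  obtain ⟨a, ε, w⟩ := x
  cases w with
  | nil =>
    have h1 := hx2.2
    simp only [List.length_nil] at h1
    omega
  | cons b w =>
    have h1 : b ≠ a := (mem_blk.mp hx1).1 b (by simp)
    have h2 : Disjoint (KK S) ({a, b} : Finset (Fin k)) := by
      rw [Finset.disjoint_left]
      intro i hi h3
      rw [Finset.mem_insert, Finset.mem_singleton] at h3
      rcases h3 with h3 | h3
      · exact hp2 i hi (Or.inl h3.symm)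
      · exact hp2 i hi (Or.inr (by simp [h3]))
    have h3 := Finset.card_le_univ (KK S ∪ {a, b})
    rw [Finset.card_union_of_disjoint h2, Fintype.card_fin, Finset.card_pair h1.symm] at h3
    exact h3

theorem ln_injOn (w : Fin N × Fin s) (l r : ZMod M) (c : Fin nC) :
    Function.Injective (ln e m w l r c) := fun _ _ H => (ln_inj H).2.2.1

theorem S1_disj {r : Fin k ⊕ XX k t s nC M L N m} (H : ∀ i, ¬ IsK i r) : r ∉ S1 S := by
  classical
  unfold S1
  rw [Finset.mem_filter]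
  rintro ⟨-, i, hi⟩
  exact H i hi

theorem S1_sub : S1 S ⊆ S := by
  classical
  unfold S1
  exact Finset.filter_subset _ _

/-- three disjoint parts of `S` -/
theorem three {A B : Finset (Fin k ⊕ XX k t s nC M L N m)} (hA : A ⊆ S) (hB : B ⊆ S)
    (hA1 : ∀ a ∈ A, ∀ i, ¬ IsK i a) (hB1 : ∀ b ∈ B, ∀ i, ¬ IsK i b) (hAB : ∀ a ∈ A, a ∉ B) :
    (S1 S).card + A.card + B.card ≤ S.card := by
  classical
  have h1 : Disjoint A B := Finset.disjoint_left.mpr hAB
  have h2 : Disjoint (S1 S) (A ∪ B) := by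
    rw [Finset.disjoint_right]
    intro a ha
    rw [Finset.mem_union] at ha
    rcases ha with ha | ha
    · exact S1_disj (hA1 a ha)
    · exact S1_disj (hB1 a ha)
  have h3 : S1 S ∪ (A ∪ B) ⊆ S :=
    Finset.union_subset S1_sub (Finset.union_subset hA hB)
  have h4 := Finset.card_le_card h3
  rw [Finset.card_union_of_disjoint h2, Finset.card_union_of_disjoint h1] at h4
  omega

/-- two lines meeting twice are equal -/
theorem two_lines [Fact M.Prime] (hM : g < M) {l r l' r' : ZMod M} {p q : Fin g} (hpq : p ≠ q)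
    (h1 : l + r * (p.val : ZMod M) = l' + r' * (p.val : ZMod M))
    (h2 : l + r * (q.val : ZMod M) = l' + r' * (q.val : ZMod M)) : r = r' ∧ l = l' := by
  have h3 : (r - r') * ((p.val : ZMod M) - (q.val : ZMod M)) = 0 := by
    linear_combination h1 - h2
  have h4 : (p.val : ZMod M) - (q.val : ZMod M) ≠ 0 := by
    intro h5
    have h6 := sub_eq_zero.mp h5
    rw [ZMod.natCast_eq_natCast_iff'] at h6
    have h7 := p.isLt
    have h8 := q.isLt
    rw [Nat.mod_eq_of_lt (by omega), Nat.mod_eq_of_lt (by omega)] at h6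
    exact hpq (Fin.ext h6)
  have h5 : r = r' := by
    rcases mul_eq_zero.mp h3 with h6 | h6
    · exact sub_eq_zero.mp h6
    · exact absurd h6 h4
  subst h5
  exact ⟨rfl, add_right_cancel h1⟩

/-- slopes of new vertices -/
theorem slope_ne [Fact M.Prime] (hM : s < M) (j : Fin (s - 2)) : ((j.val : ZMod M) + 1) ≠ 0 := by
  intro h1
  have h2 : (((j.val + 1 : ℕ)) : ZMod M) = 0 := by
    push_cast
    exact h1
  rw [ZMod.natCast_eq_zero_iff] at h2
  have h3 := j.isLt
  have := Nat.le_of_dvd (by omega) h2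
  omega

theorem slope_inj [Fact M.Prime] (hM : s < M) {i j : Fin (s - 2)}
    (H : ((i.val : ZMod M) + 1) = ((j.val : ZMod M) + 1)) : i = j := by
  have h1 := add_right_cancel H
  rw [ZMod.natCast_eq_natCast_iff'] at h1
  have h7 := i.isLt
  have h8 := j.isLt
  rw [Nat.mod_eq_of_lt (by omega), Nat.mod_eq_of_lt (by omega)] at h1
  exact Fin.ext h1

/-- `u` is cut from the good hubs: it has a line whose gates are in `S` -/
theorem gates_F (ht : 2 ≤ t) {β : BJ s M N} {c : Fin nC} {p : Fin g} (hu : bv e m β c p ∉ S)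
    (hR : ¬ ∃ i ∈ KK S, Conn (oGraph e s M N m) S (t + 1) (bv e m β c p) (.inl i)) :
    p ∉ Gs e S c ∧ ∀ q ∈ Gs e S c, bv e m β c q ∈ S := by
  have h1 : p ∉ Gs e S c := by
    intro h2
    obtain ⟨i, hi, hL⟩ := mem_Gs.mp h2
    exact hR ⟨i, hi, (conn_bv ht hi hL hu).mono (by omega)⟩
  refine ⟨h1, fun q hq => ?_⟩
  by_contra h2
  obtain ⟨i, hi, hL⟩ := mem_Gs.mp hq
  refine hR ⟨i, hi, ?_⟩
  have h3 : p ≠ q := fun h4 => h1 (h4 ▸ hq)
  exact (conn_bv ht hi hL h2).cons hu (Or.inr (adj_PE β c h3))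

theorem gates_Y (ht : 2 ≤ t) {w : Fin N × Fin s} {j : Fin (s - 2)} {l : ZMod M} {c : Fin nC}
    (hu : yv k t L m (w, (j, l, c)) ∉ S)
    (hR : ¬ ∃ i ∈ KK S, Conn (oGraph e s M N m) S (t + 1) (yv k t L m (w, (j, l, c))) (.inl i)) :
    ∀ q ∈ Gs e S c, ln e m w l ((j.val : ZMod M) + 1) c q ∈ S := by
  intro q hq
  by_contra h2
  obtain ⟨i, hi, hL⟩ := mem_Gs.mp hq
  exact hR ⟨i, hi, (conn_bv ht hi hL h2).cons hu (Or.inr (adj_FY w j l c q).symm)⟩

theorem two_step_F [Fact M.Prime] (hk : k + 1 = g + s) (hg2 : 2 * g ≤ k + 1) (hk4 : 4 ≤ k)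
    (ht : 2 ≤ t) (hgM : g < M) (hsM : s < M) (hcov : ∀ c i, ∃ p, Lab (e (c, p)).2.1 i)
    (hS : S.card = k - 1) {β : BJ s M N} {c : Fin nC} {p : Fin g} (hu : bv e m β c p ∉ S)
    (hR : ¬ ∃ i ∈ KK S, Conn (oGraph e s M N m) S (t + 1) (bv e m β c p) (.inl i)) {i : Fin k}
    (hi : i ∈ KK S) : Conn (oGraph e s M N m) S (t + 2) (bv e m β c p) (.inl i) := by
  classical
  obtain ⟨h1, h2⟩ := gates_F ht hu hR
  by_contra hcon
  obtain ⟨q, hq⟩ := hcov c i
  have hqG : q ∈ Gs e S c := mem_Gs.mpr ⟨i, hi, hq⟩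
  have hpq : p ≠ q := fun h4 => h1 (h4 ▸ hqG)
  obtain ⟨n, γ, b⟩ := β
  -- the child number `j`
  let l : Fin (s - 2) → ZMod M := fun j => b - ((j.val : ZMod M) + 1) * (p.val : ZMod M)
  have hw : ∀ j : Fin (s - 2), ln e m (n, γ) (l j) ((j.val : ZMod M) + 1) c p =
      bv e m (n, γ, b) c p := by
    intro j
    unfold ln
    simp only [l]
    rw [sub_add_cancel]
  have h3 : ∀ j : Fin (s - 2), ∃ r ∈ S, r = yv k t L m ((n, γ), (j, l j, c)) ∨
      r = ln e m (n, γ) (l j) ((j.val : ZMod M) + 1) c q := by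
    intro j
    by_contra h4
    push Not at h4
    have h5 : yv k t L m ((n, γ), (j, l j, c)) ∉ S := fun h6 => (h4 _ h6).1 rfl
    have h6 : ln e m (n, γ) (l j) ((j.val : ZMod M) + 1) c q ∉ S := fun h6 => (h4 _ h6).2 rfl
    apply hcon
    have h7 := (conn_bv ht hi hq h6).cons h5 (Or.inr (adj_FY (e := e) (n, γ) j (l j) c q).symm)
    refine h7.cons hu (Or.inr ?_)
    rw [← hw j]
    exact adj_FY (n, γ) j (l j) c p
  choose f hf1 hf2 using h3
  have hinj : Function.Injective f := by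
    intro i j hij
    rcases hf2 i with h4 | h4 <;> rcases hf2 j with h5 | h5
    · rw [h4, h5] at hij
      unfold yv at hij
      have := Sum.inl.inj (Sum.inr.inj (Sum.inr.inj hij))
      simp only [Prod.mk.injEq] at this
      exact this.2.1
    · rw [h4, h5] at hij
      unfold yv ln bv at hij
      simp at hij
    · rw [h4, h5] at hij
      unfold yv ln bv at hij
      simp at hij
    · rw [h4, h5] at hij
      have h6 := (ln_inj hij).2.2.2
      have h7 : l i + ((i.val : ZMod M) + 1) * (p.val : ZMod M) =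
          l j + ((j.val : ZMod M) + 1) * (p.val : ZMod M) := by
        simp only [l]
        ring
      exact slope_inj hsM (two_lines hgM hpq h7 h6).1
  have h4 := three (S := S) (A := (Gs e S c).image (bv e m (n, γ, b) c))
    (B := (Finset.univ : Finset (Fin (s - 2))).image f) (by
      intro a ha
      rw [Finset.mem_image] at ha
      obtain ⟨q', hq', rfl⟩ := ha
      exact h2 q' hq') (by
      intro a ha
      rw [Finset.mem_image] at ha
      obtain ⟨j, -, rfl⟩ := ha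
      exact hf1 j) (by
      intro a ha i
      rw [Finset.mem_image] at ha
      obtain ⟨q', hq', rfl⟩ := ha
      exact not_IsK_bv _ _ _ _) (by
      intro a ha i
      rw [Finset.mem_image] at ha
      obtain ⟨j, -, rfl⟩ := ha
      rcases hf2 j with h5 | h5
      · rw [h5]
        exact not_IsK_yv _ _
      · rw [h5]
        exact not_IsK_bv _ _ _ _) (by
      intro a ha hb
      rw [Finset.mem_image] at ha hb
      obtain ⟨q', hq', rfl⟩ := ha
      obtain ⟨j, -, hj⟩ := hb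
      rcases hf2 j with h5 | h5
      · rw [h5] at hj
        unfold yv bv at hj
        simp at hj
      · rw [h5] at hj
        unfold ln at hj
        obtain ⟨h6, -, h7⟩ := bv_inj hj
        subst h7
        rw [Prod.mk.injEq, Prod.mk.injEq] at h6
        have h8 := h6.2.2
        have h9 : l j + ((j.val : ZMod M) + 1) * (p.val : ZMod M) =
            b + 0 * (p.val : ZMod M) := by
          simp only [l]
          ring
        have h10 : l j + ((j.val : ZMod M) + 1) * (q.val : ZMod M) =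
            b + 0 * (q.val : ZMod M) := by
          rw [h8]
          ring
        exact slope_ne hsM j (two_lines hgM hpq h9 h10).1)
  rw [Finset.card_image_of_injective _ hinj, Finset.card_image_of_injective _
    (fun _ _ H => (bv_inj H).2.2), Finset.card_univ, Fintype.card_fin] at h4
  have h5 := card_KK S
  have h6 := cover (S := S) hcov c
  have h7 := card_KK_two (e := e) (S := S) ht h1
  omega

theorem two_step_Y (hk : k + 1 = g + s) (hg2 : 2 * g ≤ k + 1) (hk4 : 4 ≤ k) (ht : 2 ≤ t)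
    (hcov : ∀ c i, ∃ p, Lab (e (c, p)).2.1 i) (hS : S.card = k - 1)
    {w : Fin N × Fin s} {j : Fin (s - 2)} {l : ZMod M} {c : Fin nC}
    (hu : yv k t L m (w, (j, l, c)) ∉ S)
    (hR : ¬ ∃ i ∈ KK S, Conn (oGraph e s M N m) S (t + 1) (yv k t L m (w, (j, l, c))) (.inl i))
    {i : Fin k} (hi : i ∈ KK S) :
    Conn (oGraph e s M N m) S (t + 2) (yv k t L m (w, (j, l, c))) (.inl i) := by
  classical
  have h2 := gates_Y ht hu hR
  by_contra hcon
  obtain ⟨q, hq⟩ := hcov c i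
  obtain ⟨n, γ⟩ := w
  have h3 : ∀ γ' : {x : Fin s // x ≠ γ}, ∃ r ∈ S, r = yv k t L m ((n, γ'.1), (j, l, c)) ∨
      r = ln e m (n, γ'.1) l ((j.val : ZMod M) + 1) c q := by
    intro γ'
    by_contra h4
    push Not at h4
    have h5 : yv k t L m ((n, γ'.1), (j, l, c)) ∉ S := fun h6 => (h4 _ h6).1 rfl
    have h6 : ln e m (n, γ'.1) l ((j.val : ZMod M) + 1) c q ∉ S := fun h6 => (h4 _ h6).2 rfl
    apply hcon
    have h7 := (conn_bv ht hi hq h6).cons h5 (Or.inr (adj_FY (e := e) (n, γ'.1) j l c q).symm)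
    exact h7.cons hu (Or.inr (adj_YY n (Ne.symm γ'.2) (j, l, c)))
  choose f hf1 hf2 using h3
  have hinj : Function.Injective f := by
    intro x y hij
    rcases hf2 x with h4 | h4 <;> rcases hf2 y with h5 | h5
    · rw [h4, h5] at hij
      unfold yv at hij
      have := Sum.inl.inj (Sum.inr.inj (Sum.inr.inj hij))
      simp only [Prod.mk.injEq] at this
      exact Subtype.ext this.1.2
    · rw [h4, h5] at hij
      unfold yv ln bv at hij
      simp at hij
    · rw [h4, h5] at hij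
      unfold yv ln bv at hij
      simp at hij
    · rw [h4, h5] at hij
      have h6 := (ln_inj hij).1
      rw [Prod.mk.injEq] at h6
      exact Subtype.ext h6.2
  have h4 := three (S := S) (A := (Gs e S c).image (ln e m (n, γ) l ((j.val : ZMod M) + 1) c))
    (B := (Finset.univ : Finset {x : Fin s // x ≠ γ}).image f) (by
      intro a ha
      rw [Finset.mem_image] at ha
      obtain ⟨q', hq', rfl⟩ := ha
      exact h2 q' hq') (by
      intro a ha
      rw [Finset.mem_image] at ha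
      obtain ⟨j, -, rfl⟩ := ha
      exact hf1 j) (by
      intro a ha i
      rw [Finset.mem_image] at ha
      obtain ⟨q', hq', rfl⟩ := ha
      exact not_IsK_bv _ _ _ _) (by
      intro a ha i
      rw [Finset.mem_image] at ha
      obtain ⟨x, -, rfl⟩ := ha
      rcases hf2 x with h5 | h5
      · rw [h5]
        exact not_IsK_yv _ _
      · rw [h5]
        exact not_IsK_bv _ _ _ _) (by
      intro a ha hb
      rw [Finset.mem_image] at ha hb
      obtain ⟨q', hq', rfl⟩ := ha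
      obtain ⟨x, -, hj⟩ := hb
      rcases hf2 x with h5 | h5
      · rw [h5] at hj
        unfold yv ln bv at hj
        simp at hj
      · rw [h5] at hj
        have h6 := (ln_inj hj).1
        rw [Prod.mk.injEq] at h6
        exact x.2 h6.2)
  rw [Finset.card_image_of_injective _ hinj, Finset.card_image_of_injective _
    (ln_injOn _ _ _ _), Finset.card_univ] at h4
  have h8 : Fintype.card {x : Fin s // x ≠ γ} = s - 1 := by
    rw [Fintype.card_subtype_compl, Fintype.card_fin, Fintype.card_subtype_eq]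
  rw [h8] at h4
  have h5 := card_KK S
  have h6 := cover (S := S) hcov c
  have h7 : (KK S).card ≤ k := by
    have h8 := Finset.card_le_univ (KK S)
    rwa [Fintype.card_fin] at h8
  omega

/-- two blocked lines -/
theorem tight [Fact M.Prime] (hk4 : 4 ≤ k) (hgM : g < M)
    (hcov : ∀ c i, ∃ p, Lab (e (c, p)).2.1 i) (hS : S.card = k - 1)
    {w w' : Fin N × Fin s} {l r l' r' : ZMod M} {c c' : Fin nC}
    (h1 : ∀ q ∈ Gs e S c, ln e m w l r c q ∈ S) (h2 : ∀ q ∈ Gs e S c', ln e m w' l' r' c' q ∈ S)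
    (hne : ¬ (w = w' ∧ c = c' ∧ r = r' ∧ l = l')) :
    w = w' ∧ c = c' ∧ (∃ q ∈ Gs e S c, l + r * (q.val : ZMod M) = l' + r' * (q.val : ZMod M)) ∧
      ∀ x ∈ S, (∀ i, ¬ IsK i x) → ∃ l'' r'' c'' q'', x = ln e m w l'' r'' c'' q'' := by
  classical
  set A := (Gs e S c).image (ln e m w l r c) with hA
  set B := (Gs e S c').image (ln e m w' l' r' c') with hB
  have hAS : A ⊆ S := by
    intro a ha
    rw [hA, Finset.mem_image] at ha
    obtain ⟨q', hq', rfl⟩ := ha
    exact h1 q' hq'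
  have hBS : B ⊆ S := by
    intro a ha
    rw [hB, Finset.mem_image] at ha
    obtain ⟨q', hq', rfl⟩ := ha
    exact h2 q' hq'
  have hAc : (KK S).card ≤ 2 * A.card := by
    rw [hA, Finset.card_image_of_injective _ (ln_injOn _ _ _ _)]
    exact cover hcov c
  have hBc : (KK S).card ≤ 2 * B.card := by
    rw [hB, Finset.card_image_of_injective _ (ln_injOn _ _ _ _)]
    exact cover hcov c'
  have hI : (A ∩ B).card ≤ 1 := by
    rw [Finset.card_le_one]
    intro a ha b hb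
    rw [Finset.mem_inter, hA, hB, Finset.mem_image, Finset.mem_image] at ha hb
    obtain ⟨⟨q1, -, e1⟩, ⟨q2, -, e2⟩⟩ := ha
    obtain ⟨⟨q3, -, e3⟩, ⟨q4, -, e4⟩⟩ := hb
    rw [← e1, ← e3]
    obtain ⟨f1, f2, f3, f4⟩ := ln_inj (e1.trans e2.symm)
    obtain ⟨-, -, -, f5⟩ := ln_inj (e3.trans e4.symm)
    by_contra h3
    have h4 : q1 ≠ q3 := fun h5 => h3 (by rw [h5])
    obtain ⟨h5, h6⟩ := two_lines hgM h4 f4 f5
    exact hne ⟨f1, f2, h5, h6⟩
  have hkk := card_KK S
  set U := S \ S1 S with hU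
  have hUc : U.card + (S1 S).card = S.card := by
    rw [hU]
    exact Finset.card_sdiff_add_card_eq_card S1_sub
  have hABU : A ∪ B ⊆ U := by
    intro a ha
    rw [hU, Finset.mem_sdiff]
    rw [Finset.mem_union] at ha
    rcases ha with ha | ha
    · refine ⟨hAS ha, S1_disj ?_⟩
      rw [hA, Finset.mem_image] at ha
      obtain ⟨q', -, rfl⟩ := ha
      exact not_IsK_bv _ _ _
    · refine ⟨hBS ha, S1_disj ?_⟩
      rw [hB, Finset.mem_image] at ha
      obtain ⟨q', -, rfl⟩ := ha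
      exact not_IsK_bv _ _ _
  have h3 := Finset.card_le_card hABU
  have h4 := Finset.card_union_add_card_inter A B
  have hK1 : 1 ≤ (KK S).card := by
    have h5 : (S1 S).card ≤ S.card := Finset.card_le_card S1_sub
    omega
  have h5 : 0 < (A ∩ B).card := by omega
  have h6 : A ∪ B = U := Finset.eq_of_subset_of_card_le hABU (by omega)
  rw [Finset.card_pos] at h5
  obtain ⟨a, ha⟩ := h5
  rw [Finset.mem_inter, hA, hB, Finset.mem_image, Finset.mem_image] at ha
  obtain ⟨⟨q1, hq1, e1⟩, ⟨q2, -, e2⟩⟩ := ha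
  obtain ⟨f1, f2, f3, f4⟩ := ln_inj (e1.trans e2.symm)
  refine ⟨f1, f2, ⟨q1, hq1, f4⟩, ?_⟩
  intro x hx hxK
  have h7 : x ∈ U := by
    rw [hU, Finset.mem_sdiff]
    exact ⟨hx, S1_disj hxK⟩
  rw [← h6, Finset.mem_union, hA, hB, Finset.mem_image, Finset.mem_image] at h7
  rcases h7 with ⟨q', -, rfl⟩ | ⟨q', -, rfl⟩
  · exact ⟨_, _, _, _, rfl⟩
  · rw [← f1]
    exact ⟨_, _, _, _, rfl⟩

/-- the line of a vertex which does not reach a good hub -/
def HasLine (e : Fin nC × Fin g ≃ Fin L × BT k t) (S : Finset (Fin k ⊕ XX k t s nC M L N m))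
    (u : Fin k ⊕ XX k t s nC M L N m) : Prop :=
  (∃ w b c p, u = bv e m (w.1, w.2, b) c p ∧ p ∉ Gs e S c ∧
      ∀ q ∈ Gs e S c, ln e m w b 0 c q ∈ S) ∨
    ∃ w j l c, u = yv k t L m (w, (j, l, c)) ∧
      ∀ q ∈ Gs e S c, ln e m w l ((j.val : ZMod M) + 1) c q ∈ S

theorem exists_bv {β : BI s M L N} {x : TV k} {hx : x ∈ blk k t} (hB : Bot t x) :
    ∃ c p, (vb nC m β x hx) = bv e m (β.1, β.2.1, β.2.2.1) c p := by
  obtain ⟨n, γ, b, a⟩ := β
  obtain ⟨y, hy⟩ : ∃ y, y = e.symm (a, ⟨x, hx, hB⟩) := ⟨_, rfl⟩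
  have h1 : e (y.1, y.2) = (a, ⟨x, hx, hB⟩) := by
    rw [Prod.mk.eta, hy, Equiv.apply_symm_apply]
  refine ⟨y.1, y.2, ?_⟩
  unfold bv
  simp only [h1]

theorem conn_hubs {i j : Fin k} (hi : (.inl i : Fin k ⊕ XX k t s nC M L N m) ∉ S)
    (hj : (.inl j : Fin k ⊕ XX k t s nC M L N m) ∉ S) :
    Conn (oGraph e s M N m) S 1 (.inl i) (.inl j) := by
  refine (Conn.refl hj).cons hi ?_
  by_cases h : i = j
  · left; rw [h]
  · right; exact h

theorem KK_ne (hk : 1 ≤ k) (hS : S.card = k - 1) : (KK S).Nonempty := by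
  rw [← Finset.card_pos]
  have h1 := card_KK S
  have h2 := Finset.card_le_card (S1_sub (S := S))
  omega

/-- one vertex -/
theorem one (ht : 2 ≤ t) (hk : 1 ≤ k) (hS : S.card = k - 1) (u : Fin k ⊕ XX k t s nC M L N m)
    (hu : u ∉ S) : (∃ i ∈ KK S, Conn (oGraph e s M N m) S (t + 1) u (.inl i)) ∨ HasLine e S u := by
  by_cases hR : ∃ i ∈ KK S, Conn (oGraph e s M N m) S (t + 1) u (.inl i)
  · exact Or.inl hR
  right
  obtain ⟨i0, hi0⟩ := KK_ne hk hS
  rcases u with i | ⟨β, x, hx⟩ | y | z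
  · exact absurd ⟨i0, hi0, (conn_hubs hu (KK_hub hi0)).mono (by omega)⟩ hR
  · by_cases hB : Bot t x
    · left
      obtain ⟨c, p, h1⟩ := exists_bv (e := e) (m := m) (β := β) (hx := hx) hB
      have h1' : (.inr (.inl (β, ⟨x, hx⟩)) : Fin k ⊕ XX k t s nC M L N m) =
        bv e m (β.1, β.2.1, β.2.2.1) c p := h1
      rw [h1'] at hu hR ⊢
      obtain ⟨h2, h3⟩ := gates_F ht hu hR
      refine ⟨(β.1, β.2.1), β.2.2.1, c, p, rfl, h2, fun q hq => ?_⟩
      unfold ln
      rw [zero_mul, add_zero]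
      exact h3 q hq
    · exact absurd (reach hk hS β hx hB hu) hR
  · right
    obtain ⟨w, j, l, c⟩ := y
    exact ⟨w, j, l, c, rfl, gates_Y ht hu hR⟩
  · exact absurd ⟨i0, hi0, ((Conn.refl (KK_hub hi0)).cons hu (Or.inr trivial)).mono (by omega)⟩ hR

end S

theorem oGraph_conn [Fact M.Prime] (hk : k + 1 = g + s) (hg : k ≤ 2 * g) (hg2 : 2 * g ≤ k + 1)
    (hk4 : 4 ≤ k) (ht : 2 ≤ t) (hM : k < M) (hcov : ∀ c i, ∃ p, Lab (e (c, p)).2.1 i)
    (S : Finset (Fin k ⊕ XX k t s nC M L N m)) (hS : S.card = k - 1)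
    (u v : Fin k ⊕ XX k t s nC M L N m) (hu : u ∉ S) (hv : v ∉ S) :
    Conn (oGraph e s M N m) S (2 * t + 3) u v := by
  classical
  have hgM : g < M := by omega
  have hsM : s < M := by omega
  -- one reaches a good hub, the other one not
  have hA : ∀ {u v : Fin k ⊕ XX k t s nC M L N m}, u ∉ S → v ∉ S →
      (∃ i ∈ KK S, Conn (oGraph e s M N m) S (t + 1) v (.inl i)) →
      Conn (oGraph e s M N m) S (2 * t + 3) u v := by
    intro u v hu hv hRv
    obtain ⟨i, hi, hc⟩ := hRv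
    by_cases hR : ∃ i ∈ KK S, Conn (oGraph e s M N m) S (t + 1) u (.inl i)
    · obtain ⟨j, hj, hd⟩ := hR
      exact (Conn.trans' hd (Conn.trans' (conn_hubs (KK_hub hj) (KK_hub hi))
        (Conn.symm' hc))).mono (by omega)
    · have h1 : Conn (oGraph e s M N m) S (t + 2) u (.inl i) := by
        rcases one (e := e) ht (by omega) hS u hu with h2 | h2
        · exact absurd h2 hR
        · rcases h2 with ⟨w, b, c, p, rfl, -, -⟩ | ⟨w, j, l, c, rfl, -⟩
          · exact two_step_F hk hg2 hk4 ht hgM hsM hcov hS hu hR hi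
          · exact two_step_Y hk hg2 hk4 ht hcov hS hu hR hi
      exact (Conn.trans' h1 (Conn.symm' hc)).mono (by omega)
  rcases one (e := e) ht (by omega) hS v hv with h1 | h1
  · exact hA hu hv h1
  rcases one (e := e) ht (by omega) hS u hu with h2 | h2
  · exact Conn.symm' (hA hv hu h2)
  -- a free copy
  have hfree : ∀ (n : Fin N) (γ : Fin s),
      (∀ x ∈ S, (∀ i, ¬ IsK i x) → ∃ l'' r'' c'' q'', x = ln e m (n, γ) l'' r'' c'' q'') →
      (∀ y, yv k t L m y ∉ S) ∧ ∃ γ', γ ≠ γ' ∧ ∀ b c p, bv e m (n, γ', b) c p ∉ S := by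
    intro n γ h3
    refine ⟨fun y hy => ?_, ?_⟩
    · obtain ⟨l, r, c, q, h4⟩ := h3 _ hy (not_IsK_yv y)
      unfold yv ln bv at h4
      simp at h4
    · obtain ⟨γ', hγ⟩ : ∃ γ' : Fin s, γ ≠ γ' := by
        have : Nontrivial (Fin s) := by
          rw [Fin.nontrivial_iff_two_le]
          omega
        obtain ⟨γ', hγ⟩ := exists_ne γ
        exact ⟨γ', hγ.symm⟩
      refine ⟨γ', hγ, fun b c p hb => ?_⟩
      obtain ⟨l, r, c', q, h4⟩ := h3 _ hb (not_IsK_bv _ _ _)
      unfold ln at h4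
      have h5 := (bv_inj h4).1
      rw [Prod.mk.injEq, Prod.mk.injEq] at h5
      exact hγ h5.2.1.symm
  -- a bottom vertex and a new vertex
  have hFY : ∀ {w w' : Fin N × Fin s} {b : ZMod M} {c c' : Fin nC} {p : Fin g}
      {j : Fin (s - 2)} {l : ZMod M}, bv e m (w.1, w.2, b) c p ∉ S →
      yv k t L m (w', (j, l, c')) ∉ S → p ∉ Gs e S c → (∀ q ∈ Gs e S c, ln e m w b 0 c q ∈ S) →
      (∀ q ∈ Gs e S c', ln e m w' l ((j.val : ZMod M) + 1) c' q ∈ S) →
      Conn (oGraph e s M N m) S (2 * t + 3) (bv e m (w.1, w.2, b) c p)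
        (yv k t L m (w', (j, l, c'))) := by
    intro w w' b c c' p j l hu hv hp h3 h4
    obtain ⟨rfl, rfl, ⟨q, hq, h5⟩, h6⟩ := tight hk4 hgM hcov hS h3 h4
      (fun h7 => slope_ne hsM j h7.2.2.1.symm)
    obtain ⟨n, γ⟩ := w
    obtain ⟨hy, γ', hγ, hb⟩ := hfree n γ h6
    have hpq : p ≠ q := fun h7 => hp (h7 ▸ hq)
    rw [zero_mul, add_zero] at h5
    have hh1 : 0 < s - 2 := by omega
    let j0 : Fin (s - 2) := ⟨0, hh1⟩
    let l0 : ZMod M := b - ((j0.val : ZMod M) + 1) * (p.val : ZMod M)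
    have hw : ∀ γ'' : Fin s, ln e m (n, γ'') l0 ((j0.val : ZMod M) + 1) c p =
        bv e m (n, γ'', b) c p := by
      intro γ''
      unfold ln
      simp only [l0]
      rw [sub_add_cancel]
    have hs : ln e m (n, γ') l ((j.val : ZMod M) + 1) c q = bv e m (n, γ', b) c q := by
      unfold ln
      simp only
      rw [← h5]
    have a1 : (oGraph e s M N m).Adj (bv e m (n, γ, b) c p) (yv k t L m ((n, γ), (j0, l0, c))) := by
      rw [← hw γ]
      exact adj_FY (n, γ) j0 l0 c p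
    have a2 := adj_YY (e := e) (m := m) n hγ (j0, l0, c)
    have a3 : (oGraph e s M N m).Adj (yv k t L m ((n, γ'), (j0, l0, c))) (bv e m (n, γ', b) c p) := by
      rw [← hw γ']
      exact (adj_FY (n, γ') j0 l0 c p).symm
    have a4 := adj_PE (e := e) (m := m) (M := M) (N := N) (n, γ', b) c hpq
    have a5 : (oGraph e s M N m).Adj (bv e m (n, γ', b) c q) (yv k t L m ((n, γ'), (j, l, c))) := by
      rw [← hs]
      exact adj_FY (n, γ') j l c q
    have a6 := adj_YY (e := e) (m := m) n hγ.symm (j, l, c)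
    exact (((((((Conn.refl hv).cons (hy _) (Or.inr a6)).cons (hb _ _ _) (Or.inr a5)).cons
      (hb _ _ _) (Or.inr a4)).cons (hy _) (Or.inr a3)).cons (hy _) (Or.inr a2)).cons hu
      (Or.inr a1)).mono (by omega)
  rcases h2 with ⟨w, b, c, p, rfl, hp, h2⟩ | ⟨w, j, l, c, rfl, h2⟩ <;>
    rcases h1 with ⟨w', b', c', p', rfl, hp', h1⟩ | ⟨w', j', l', c', rfl, h1⟩
  · by_cases hne : w = w' ∧ c = c' ∧ b = b'
    · obtain ⟨rfl, rfl, rfl⟩ := hne
      by_cases hpp : p = p'
      · subst hpp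
        exact (Conn.refl hu).mono (by omega)
      · exact (conn1 hu hv (adj_PE _ _ hpp)).mono (by omega)
    · exfalso
      obtain ⟨h3, h4, ⟨q, -, h5⟩, -⟩ := tight hk4 hgM hcov hS h2 h1
        (fun h7 => hne ⟨h7.1, h7.2.1, h7.2.2.2⟩)
      rw [zero_mul, add_zero, add_zero] at h5
      exact hne ⟨h3, h4, h5⟩
  · exact hFY hu hv hp h2 h1
  · exact Conn.symm' (hFY hv hu hp' h1 h2)
  · by_cases hne : w = w' ∧ c = c' ∧ ((j.val : ZMod M) + 1) = ((j'.val : ZMod M) + 1) ∧ l = l'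
    · obtain ⟨rfl, rfl, h3, rfl⟩ := hne
      obtain rfl := slope_inj hsM h3
      exact (Conn.refl hu).mono (by omega)
    · obtain ⟨rfl, rfl, ⟨q, -, h5⟩, h6⟩ := tight hk4 hgM hcov hS h2 h1 hne
      obtain ⟨n, γ⟩ := w
      obtain ⟨hy, γ', hγ, hb⟩ := hfree n γ h6
      have hs : ln e m (n, γ') l ((j.val : ZMod M) + 1) c q =
          ln e m (n, γ') l' ((j'.val : ZMod M) + 1) c q := by
        unfold ln
        simp only
        rw [h5]
      have a1 := adj_YY (e := e) (m := m) n hγ (j, l, c)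
      have a2 := (adj_FY (e := e) (m := m) (n, γ') j l c q).symm
      have a3 := adj_FY (e := e) (m := m) (n, γ') j' l' c q
      rw [← hs] at a3
      have a4 := adj_YY (e := e) (m := m) n hγ.symm (j', l', c)
      exact (((((Conn.refl hv).cons (hy _) (Or.inr a4)).cons (hb _ _ _) (Or.inr a3)).cons
        (hy _) (Or.inr a2)).cons hu (Or.inr a1)).mono (by omega)

end Pool.Agent.FTH
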