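import Pool.Agent.FTD.Block

/-!
# Upper bound for odd diameters `2 t + 3`, all `k ≥ 4`: definitions

`g = ⌈k / 2⌉`, `k + 1 = g + s`.  `Bot`: the bottom vertices of the trees of the first kind.
Blocks are indexed by `(n, γ, b, a)`, `n < N`, `γ < s`, `b : ZMod M`, `a < L`; `e` : indexing of the
bottom vertices of `L` blocks by (clique, position).
New vertices `((n, γ), (j, l, c))`, `j < s - 2`, `l : ZMod M`, `c` a clique; the new vertex is adjacent
to the bottom vertices number `(c, p)` of the blocks `(n, γ, l + (j + 1) p, _)`, `p < g`, and to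
`((n, γ'), (j, l, c))`, `γ' ≠ γ`.
-/

set_option autoImplicit false

namespace Pool.Agent.FTH

open Pool.Agent.Helper68 Pool.Agent.FT6 Pool.Agent.FTD

variable {k t g s nC L M N m : ℕ}

/-- bottom vertices of the trees of the first kind -/
def Bot (t : ℕ) (x : TV k) : Prop := x.2.1 = false ∧ x.2.2.length + 1 = t

instance (t : ℕ) (x : TV k) : Decidable (Bot t x) := inferInstanceAs (Decidable (_ ∧ _))

/-- the bottom vertices as a type -/
abbrev BT (k t : ℕ) : Type := {x : TV k // x ∈ blk k t ∧ Bot t x}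

/-- `i` is a label of the bottom vertex `x` -/
def Lab (x : TV k) (i : Fin k) : Prop := x.1 = i ∨ x.2.2.head? = some i

instance (x : TV k) (i : Fin k) : Decidable (Lab x i) := inferInstanceAs (Decidable (_ ∨ _))

/-- low edges inside of a block: parents and cross edges of the first two kinds -/
def lw (t : ℕ) (x y : TV k) : Prop :=
  par x y ∨ par y x ∨ (x.1 ≠ y.1 ∧ (R1 t x y ∨ R2 t x y ∨ R2 t y x))

/-- block indices -/
abbrev BI (s M L N : ℕ) : Type := Fin N × Fin s × ZMod M × Fin L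

/-- new vertices -/
abbrev YY (s nC M N : ℕ) : Type := (Fin N × Fin s) × (Fin (s - 2) × ZMod M × Fin nC)

/-- low vertices -/
abbrev XX (k t s nC M L N m : ℕ) : Type :=
  (BI s M L N × {x : TV k // x ∈ blk k t}) ⊕ (YY s nC M N ⊕ Fin m)

variable (e : Fin nC × Fin g ≃ Fin L × BT k t)

/-- edges between the bottom vertices -/
def PE (β β' : BI s M L N) (x y : TV k) : Prop :=
  β.1 = β'.1 ∧ β.2.1 = β'.2.1 ∧ β.2.2.1 = β'.2.2.1 ∧ ∃ c p q, p ≠ q ∧
    ((e (c, p)).1 = β.2.2.2 ∧ (e (c, p)).2.1 = x) ∧ (e (c, q)).1 = β'.2.2.2 ∧ (e (c, q)).2.1 = y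

/-- edges between bottom vertices and new vertices -/
def FY (β : BI s M L N) (x : TV k) (y : YY s nC M N) : Prop :=
  β.1 = y.1.1 ∧ β.2.1 = y.1.2 ∧ ∃ p : Fin g, ((e (y.2.2.2, p)).1 = β.2.2.2 ∧
    (e (y.2.2.2, p)).2.1 = x) ∧
    β.2.2.1 = y.2.2.1 + ((y.2.1.val : ZMod M) + 1) * (p.val : ZMod M)

/-- adjacency -/
def oAdj (s M N m : ℕ) : (Fin k ⊕ XX k t s nC M L N m) → (Fin k ⊕ XX k t s nC M L N m) → Prop
  | .inl i, .inl j => i ≠ j
  | .inl i, .inr (.inl x) => x.2.1.1 = i ∧ x.2.1.2.2 = []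
  | .inr (.inl x), .inl i => x.2.1.1 = i ∧ x.2.1.2.2 = []
  | .inl _, .inr (.inr (.inr _)) => True
  | .inr (.inr (.inr _)), .inl _ => True
  | .inr (.inl x), .inr (.inl y) => (x.1 = y.1 ∧ lw t x.2.1 y.2.1) ∨ PE e x.1 y.1 x.2.1 y.2.1
  | .inr (.inl x), .inr (.inr (.inl y)) => FY e x.1 x.2.1 y
  | .inr (.inr (.inl y)), .inr (.inl x) => FY e x.1 x.2.1 y
  | .inr (.inr (.inl y)), .inr (.inr (.inl z)) => y.1.1 = z.1.1 ∧ y.1.2 ≠ z.1.2 ∧ y.2 = z.2
  | _, _ => False

theorem lw_symm {x y : TV k} (h : lw t x y) : lw t y x := by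
  rcases h with h | h | ⟨h0, h | h | h⟩
  · exact Or.inr (Or.inl h)
  · exact Or.inl h
  · exact Or.inr (Or.inr ⟨h0.symm, Or.inl (R1_symm h)⟩)
  · exact Or.inr (Or.inr ⟨h0.symm, Or.inr (Or.inr h)⟩)
  · exact Or.inr (Or.inr ⟨h0.symm, Or.inr (Or.inl h)⟩)

theorem lw_irrefl (x : TV k) : ¬ lw t x x := by
  rintro (h | h | h)
  · exact par_irrefl x h
  · exact par_irrefl x h
  · exact h.1 rfl

variable {e}

theorem PE_symm {β β' : BI s M L N} {x y : TV k} (h : PE e β β' x y) : PE e β' β y x := by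
  obtain ⟨h1, h2, h3, c, p, q, h4, h5, h6⟩ := h
  exact ⟨h1.symm, h2.symm, h3.symm, c, q, p, h4.symm, h6, h5⟩

theorem PE_irrefl {β : BI s M L N} {x : TV k} : ¬ PE e β β x x := by
  rintro ⟨-, -, -, c, p, q, h4, h5, h6⟩
  have h7 : e (c, p) = e (c, q) :=
    Prod.ext (h5.1.trans h6.1.symm) (Subtype.ext (h5.2.trans h6.2.symm))
  have h8 := e.injective h7
  rw [Prod.mk.injEq] at h8
  exact h4 h8.2

variable (e)

/-- the graph -/
def oGraph (s M N m : ℕ) : SimpleGraph (Fin k ⊕ XX k t s nC M L N m) where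
  Adj := oAdj e s M N m
  symm := ⟨by
    intro u v h
    rcases u with i | x | y | z <;> rcases v with i' | x' | y' | z' <;> simp only [oAdj] at h ⊢
    · exact fun h' => h h'.symm
    · exact h
    · exact h
    · exact h.imp (fun h1 => ⟨h1.1.symm, lw_symm h1.2⟩) PE_symm
    · exact h
    · exact h
    · exact ⟨h.1.symm, h.2.1.symm, h.2.2.symm⟩⟩
  loopless := ⟨by
    intro u h
    rcases u with i | x | y | z
    · exact h rfl
    · rcases h with h | h
      · exact lw_irrefl _ h.2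
      · exact PE_irrefl h
    · exact h.2.1 rfl
    · exact h⟩

end Pool.Agent.FTH
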