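import Pool.Agent.FTH.Routes

/-!
# Vertices which are not bottom vertices reach a good label

`KK S`: the labels `i` such that the hub `i` and all non-bottom block vertices of colour `i` are not in `S`.
`S1 S`: the hubs and the non-bottom block vertices in `S`.
`card_KK`: the complement of `KK S` injects into `S1 S`.
`reach`: a vertex `x ∉ S` of a block, not `Bot`, reaches within `t + 1` steps the hub of a label of `KK S`.
PROOF. If the own path of `x` (`conn_own`) avoids `S`: `t` steps to the hub `x.1`, one more step to a hub of `KK S` (`KK S ≠ ∅` by `card_KK`; the hubs are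
a clique).  Otherwise (also if the hub `x.1` is in `S`) there is `s0 ∈ S` hitting it: the hub `x.1` or a non-bottom vertex of colour `x.1`
(`QB_own`: a proper ancestor of `x`).  If for every `i ∈ KK S` some `s i ∈ S` hits the path number `i` of `x` (`QB t i x`; `i ∈ KK S` is not the colour `x.1`, so by
`QB_spec`: `s i` has colour `i` [then it is a bottom vertex, as `i ∈ KK S`] or `i` is the head of its word and it is a proper descendant of `x`, colour `x.1`), then
`s` is injective on `KK S`, `s i ≠ s0`; for every `j ∉ KK S`, `j ≠ x.1` choose a hub / non-bottom `s j ∈ S` of colour `j`; `s x.1 = s0`.  All `s j`, `j : Fin k`,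
are different elements of `S` (`s i`, `i ∈ KK S`, is `Bot` or has colour `x.1`): contradiction (`Pool.Agent.FTA.no_inj`).
-/

set_option autoImplicit false

namespace Pool.Agent.FTH

open Pool.Agent.Helper68 Pool.Agent.FT6 Pool.Agent.FTD

variable {k t g s nC L M N m : ℕ} {e : Fin nC × Fin g ≃ Fin L × BT k t}

/-- hubs and non-bottom block vertices, with their label -/
def IsK (i : Fin k) : (Fin k ⊕ XX k t s nC M L N m) → Prop
  | .inl j => j = i
  | .inr (.inl y) => ¬ Bot t y.2.1 ∧ y.2.1.1 = i
  | _ => False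

open Classical in
/-- the good labels -/
noncomputable def KK (S : Finset (Fin k ⊕ XX k t s nC M L N m)) : Finset (Fin k) :=
  Finset.univ.filter (fun i => ∀ s ∈ S, ¬ IsK i s)

open Classical in
/-- the hubs and non-bottom block vertices in `S` -/
noncomputable def S1 (S : Finset (Fin k ⊕ XX k t s nC M L N m)) :
    Finset (Fin k ⊕ XX k t s nC M L N m) := S.filter (fun s => ∃ i, IsK i s)

private theorem isK_inj {i j : Fin k} {s : Fin k ⊕ XX k t s nC M L N m} (hi : IsK i s)
    (hj : IsK j s) : i = j := by
  rcases s with s | s | s | s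
  · exact (show s = i from hi).symm.trans (show s = j from hj)
  · exact (show _ ∧ s.2.1.1 = i from hi).2.symm.trans (show _ ∧ s.2.1.1 = j from hj).2
  · exact hi.elim
  · exact hi.elim

private theorem mem_KK {S : Finset (Fin k ⊕ XX k t s nC M L N m)} {i : Fin k} :
    i ∈ KK S ↔ ∀ s ∈ S, ¬ IsK i s := by
  classical
  simp [KK]

private theorem not_KK {S : Finset (Fin k ⊕ XX k t s nC M L N m)} {i : Fin k} (hi : i ∉ KK S) :
    ∃ s ∈ S, IsK i s := by
  rw [mem_KK] at hi
  push Not at hi
  exact hi

theorem card_KK (S : Finset (Fin k ⊕ XX k t s nC M L N m)) : k ≤ (S1 S).card + (KK S).card := by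
  classical
  have h1 : ∀ i ∈ (KK S)ᶜ, ∃ s ∈ S, IsK i s := fun i hi => not_KK (Finset.mem_compl.1 hi)
  choose! f hf1 hf2 using h1
  have h2 : ((KK S)ᶜ).card ≤ (S1 S).card := by
    refine Finset.card_le_card_of_injOn f (fun i hi => ?_) (fun i hi j hj hij => ?_)
    · exact Finset.mem_filter.2 ⟨hf1 i hi, i, hf2 i hi⟩
    · have h3 := hf2 j hj
      rw [← hij] at h3
      exact isK_inj (hf2 i hi) h3
  rw [Finset.card_compl, Fintype.card_fin] at h2
  omega

/-- `s` hits the path number `i` of `x` -/
private def Hit (β : BI s M L N) (x : TV k) (i : Fin k) (s : Fin k ⊕ XX k t s nC M L N m) : Prop :=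
  s = .inl i ∨ ∃ s', ∃ hs : s' ∈ blk k t, s' ∈ QB t i x ∧ s = vb nC m β s' hs

theorem reach {S : Finset (Fin k ⊕ XX k t s nC M L N m)} (hk : 1 ≤ k) (hS : S.card = k - 1)
    (β : BI s M L N) {x : TV k} (hx : x ∈ blk k t) (hxB : ¬ Bot t x) (hxS : vb nC m β x hx ∉ S) :
    ∃ i ∈ KK S, Conn (oGraph e s M N m) S (t + 1) (vb nC m β x hx) (.inl i) := by
  classical
  let c0 : Fin k := ⟨0, by omega⟩
  have hKS : ∀ i ∈ KK S, (.inl i : Fin k ⊕ XX k t s nC M L N m) ∉ S := fun i hi hs =>
    mem_KK.1 hi _ hs rfl
  by_cases hA : ∃ s0 ∈ S, Hit (t := t) (nC := nC) (m := m) β x x.1 s0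
  · obtain ⟨s0, hs0, hH0⟩ := hA
    have hK0 : IsK x.1 s0 := by
      rcases hH0 with rfl | ⟨s', hs', hq, rfl⟩
      · rfl
      · have ha := QB_own hq
        refine ⟨fun hb => ?_, ha.1⟩
        have h1 := ancB_len ha
        have h2 := (mem_blk.mp hx).2.2
        rw [← ha.2.1] at h2
        have hb1 : s'.2.1 = false := hb.1
        have hb2 : s'.2.2.length + 1 = t := hb.2
        rw [hb1] at h2
        simp only [Bool.false_eq_true, if_false] at h2
        omega
    by_contra hcon
    have hall : ∀ i ∈ KK S, ∃ s ∈ S, Hit (t := t) (nC := nC) (m := m) β x i s := by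
      intro i hi
      by_contra hno
      push Not at hno
      refine hcon ⟨i, hi, conn_path β hx hxB hxS (hKS i hi) fun s hs hq hsS => ?_⟩
      exact hno _ hsS (Or.inr ⟨s, hs, hq, rfl⟩)
    choose! f hf1 hf2 using hall
    have hout : ∀ i ∉ KK S, ∃ s ∈ S, IsK i s := fun i hi => not_KK hi
    choose! g hg1 hg2 using hout
    -- the elements hitting the paths of the good labels
    have hgood : ∀ i ∈ KK S, ∃ s', ∃ hs : s' ∈ blk k t, f i = vb nC m β s' hs ∧
        ((i = s'.1 ∧ Bot t s' ∧ ¬ ancB x s') ∨ (i = s'.2.2.headD c0 ∧ ancB x s')) := by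
      intro i hi
      rcases hf2 i hi with h1 | ⟨s', hs', hq, h1⟩
      · exact absurd (h1 ▸ hf1 i hi) (hKS i hi)
      · refine ⟨s', hs', h1, ?_⟩
        rcases QB_spec c0 hq with ⟨h2, h3⟩ | ⟨h2, h3, h4⟩
        · left
          refine ⟨h2, ?_, h3⟩
          by_contra hb
          exact mem_KK.1 hi _ (hf1 i hi) (by rw [h1]; exact ⟨hb, h2.symm⟩)
        · exact Or.inr ⟨h2, h4⟩
    have hx1 : x.1 ∉ KK S := fun h1 => mem_KK.1 h1 _ hs0 hK0
    -- a good label and a label which is not good
    have hmix : ∀ i ∈ KK S, ∀ j s, IsK j s → (j = x.1 → s = s0) → f i ≠ s := by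
      intro i hi j s hj hjs he
      obtain ⟨s', hs', h1, h2⟩ := hgood i hi
      rw [← he, h1] at hj
      obtain ⟨hj1, hj2⟩ : ¬ Bot t s' ∧ s'.1 = j := hj
      rcases h2 with ⟨-, h3, -⟩ | ⟨-, h3⟩
      · exact hj1 h3
      · have h4 : j = x.1 := hj2.symm.trans h3.1.symm
        have h5 := hjs h4
        rw [← he, h1] at h5
        rcases hH0 with h6 | ⟨s'', hs'', hq, h6⟩
        · rw [← h5] at h6
          exact absurd h6 (by simp)
        · rw [← h5] at h6
          simp only [Sum.inr.injEq, Sum.inl.injEq, Prod.mk.injEq, true_and, Subtype.mk.injEq] at h6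
          rw [← h6] at hq
          have h7 := ancB_len (QB_own hq)
          have h8 := ancB_len h3
          omega
    have hmid : ∀ i ∈ KK S, ∀ j ∈ KK S, f i = f j → i = j := by
      intro i hi j hj he
      obtain ⟨s', hs', h1, h2⟩ := hgood i hi
      obtain ⟨s'', hs'', h3, h4⟩ := hgood j hj
      have h6 : s' = s'' := by
        rw [h1, h3] at he
        simpa only [Sum.inr.injEq, Sum.inl.injEq, Prod.mk.injEq, true_and, Subtype.mk.injEq]
          using he
      subst h6
      rcases h2 with ⟨a1, a2, a3⟩ | ⟨a1, a2⟩ <;> rcases h4 with ⟨b1, b2, b3⟩ | ⟨b1, b2⟩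
      · exact a1.trans b1.symm
      · exact absurd b2 a3
      · exact absurd a2 b3
      · exact a1.trans b1.symm
    have hne : ∀ j ∉ KK S, IsK j (if j = x.1 then s0 else g j) := by
      intro j hj
      split_ifs with h1
      · rw [h1]
        exact hK0
      · exact hg2 j hj
    refine FTA.no_inj hk hS (fun i => if i ∈ KK S then f i else if i = x.1 then s0 else g i) ?_ ?_
    · intro i
      split_ifs with h1 h2
      · exact hf1 i h1
      · exact hs0
      · exact hg1 i h1
    · intro i j hij
      by_cases hi : i ∈ KK S <;> by_cases hj : j ∈ KK S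
      · simp only [if_pos hi, if_pos hj] at hij
        exact hmid i hi j hj hij
      · simp only [if_pos hi, if_neg hj] at hij
        exact absurd hij (hmix i hi j _ (hne j hj) fun h1 => if_pos h1)
      · simp only [if_neg hi, if_pos hj] at hij
        exact absurd hij.symm (hmix j hj i _ (hne i hi) fun h1 => if_pos h1)
      · simp only [if_neg hi, if_neg hj] at hij
        have h1 := hne j hj
        rw [← hij] at h1
        exact isK_inj (hne i hi) h1
  · push Not at hA
    have hown : Conn (oGraph e s M N m) S t (vb nC m β x hx) (.inl x.1) :=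
      conn_own β hx hxS (fun hs => hA _ hs (Or.inl rfl))
        fun s hs hq hsS => hA _ hsS (Or.inr ⟨s, hs, hq, rfl⟩)
    have hx1 : (.inl x.1 : Fin k ⊕ XX k t s nC M L N m) ∉ S := fun hs => hA _ hs (Or.inl rfl)
    have hne : (KK S).Nonempty := by
      rw [← Finset.card_pos]
      have h1 := card_KK S
      have h2 : (S1 S).card ≤ S.card := Finset.card_le_card (Finset.filter_subset _ _)
      omega
    obtain ⟨i, hi⟩ := hne
    refine ⟨i, hi, ?_⟩
    by_cases hix : x.1 = i
    · rw [← hix]
      exact hown.mono (by omega)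
    · have h2 : Conn (oGraph e s M N m) S 1 (.inl x.1) (.inl i) :=
        (Conn.refl (hKS i hi)).cons hx1 (Or.inr hix)
      exact Conn.trans' hown h2

end Pool.Agent.FTH
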