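import Pool.Agent.FTH.Defs

/-!
# Paths in the graph for odd diameters (copy of the section `conn` of FTD/Block)

`conn_own`, `conn_path`: as in FTD/Block; for `x` not `Bot` the path number `i ≠ x.1` goes down `JJ t i x` steps and then uses an `R1` or `R2` edge
(`nx`, never the last case: at the bottom level the head of the word is `i`).  `conn_lab`: a bottom vertex `x`, `i` its colour: up; `i` the head of its word:
the `R2` edge to `nx t i x = (i, true, (sw x.1 i w).tail)`, then up (`t - 1` steps); all vertices except `x` are not `Bot` and have colour `i`.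
-/

set_option autoImplicit false

namespace Pool.Agent.FTH

open Pool.Agent.Helper68 Pool.Agent.FT6 Pool.Agent.FTD

variable {k t g s nC L M N m : ℕ} {e : Fin nC × Fin g ≃ Fin L × BT k t}

/-- a block vertex -/
abbrev vb (nC : ℕ) {s k t M L N : ℕ} (m : ℕ) (β : BI s M L N) (x : TV k) (hx : x ∈ blk k t) :
    Fin k ⊕ XX k t s nC M L N m := .inr (.inl (β, ⟨x, hx⟩))

private theorem conn_up {S : Finset (Fin k ⊕ XX k t s nC M L N m)} (β : BI s M L N) {a : Fin k}
    {ε : Bool} : ∀ (l : List (Fin k)) (hx : ((a, ε, l) : TV k) ∈ blk k t),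
    (∀ l' (hs : l' <:+ l), vb nC m β (a, ε, l') (blk_suffix hx hs) ∉ S) → .inl a ∉ S →
    Conn (oGraph e s M N m) S (l.length + 1) (vb nC m β (a, ε, l) hx) (.inl a)
  | [], hx, hS, ha => by
    have h1 := hS [] (List.suffix_refl _)
    exact (Conn.refl ha).cons h1 (Or.inr ⟨rfl, rfl⟩)
  | b :: l, hx, hS, ha => by
    have hx' : ((a, ε, l) : TV k) ∈ blk k t := blk_suffix hx (List.suffix_cons _ _)
    have h2 := conn_up β l hx' (fun l' hs => hS l' (hs.trans (List.suffix_cons _ _))) ha
    have h1 := hS (b :: l) (List.suffix_refl _)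
    refine h2.cons h1 (Or.inr ?_)
    exact Or.inl ⟨rfl, Or.inl ⟨rfl, rfl, b, rfl⟩⟩

private theorem conn_up' {S : Finset (Fin k ⊕ XX k t s nC M L N m)} (β : BI s M L N) {y : TV k}
    (hy : y ∈ blk k t)
    (hS : ∀ s (hs : s ∈ blk k t), s ∈ sfx y → vb nC m β s hs ∉ S) (hi : .inl y.1 ∉ S) :
    Conn (oGraph e s M N m) S (y.2.2.length + 1) (vb nC m β y hy) (.inl y.1) := by
  obtain ⟨a, ε, l⟩ := y
  exact conn_up β l hy (fun l' hs => hS _ _ ⟨rfl, rfl, hs⟩) hi

private theorem conn_cross {S : Finset (Fin k ⊕ XX k t s nC M L N m)} (β : BI s M L N) {x y : TV k}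
    (hx : x ∈ blk k t) (hy : y ∈ blk k t)
    (hl : lw t x y) (hxS : vb nC m β x hx ∉ S) (hyS : vb nC m β y hy ∉ S) :
    Conn (oGraph e s M N m) S 1 (vb nC m β x hx) (vb nC m β y hy) :=
  (Conn.refl hyS).cons hxS (Or.inr (Or.inl ⟨rfl, hl⟩))

private theorem lw_of_cross {x y : TV k} (hc : cross t x y)
    (hB : ¬ Bot t x ∨ x.2.2.head? = some y.1) : lw t x y := by
  refine Or.inr (Or.inr ⟨hc.1, ?_⟩)
  rcases hc.2 with h1 | h1 | h1 | h1
  · exact Or.inl h1
  · exact Or.inr (Or.inl h1)
  · exact Or.inr (Or.inr h1)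
  · exfalso
    rcases hB with hB | hB
    · exact hB ⟨h1.1, h1.2.2.1⟩
    · exact h1.2.2.2.1 hB

private theorem conn_dir {S : Finset (Fin k ⊕ XX k t s nC M L N m)} (β : BI s M L N) {i : Fin k}
    {x : TV k} (hx : x ∈ blk k t) (hia : i ≠ x.1)
    (hB : ¬ Bot t x ∨ x.2.2.head? = some i)
    (hd : dir t i x) (hxS : vb nC m β x hx ∉ S) (hi : .inl i ∉ S)
    (hQ : ∀ s (hs : s ∈ blk k t), s ∈ sfx (nx t i x) → vb nC m β s hs ∉ S) :
    Conn (oGraph e s M N m) S (1 + ((nx t i x).2.2.length + 1)) (vb nC m β x hx) (.inl i) := by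
  obtain ⟨h1, h2, h3⟩ := nx_spec (mem_blk.mp hx) hia hd
  have h4 := conn_up' (e := e) (S := S) β (mem_blk.mpr h1) hQ (by rw [h3]; exact hi)
  rw [h3] at h4
  have h5 := conn_cross (e := e) (S := S) β hx (mem_blk.mpr h1)
    (lw_of_cross h2 (by rw [h3]; exact hB)) hxS (hQ _ _ ⟨rfl, rfl, List.suffix_refl _⟩)
  exact Conn.trans' h5 h4

private theorem conn_down {S : Finset (Fin k ⊕ XX k t s nC M L N m)} (β : BI s M L N) {i : Fin k}
    {x : TV k} (hx : Blk t x) : ∀ (n : ℕ) (hb : ∀ j ≤ n, Blk t (dn i j x)),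
    (∀ j (hj : j ≤ n), vb nC m β (dn i j x) (mem_blk.mpr (hb j hj)) ∉ S) →
    Conn (oGraph e s M N m) S n (vb nC m β x (mem_blk.mpr hx))
      (vb nC m β (dn i n x) (mem_blk.mpr (hb n (le_refl _))))
  | 0, hb, hS => by
    have h1 := hS 0 (le_refl _)
    simp only [dn_zero] at h1 ⊢
    exact Conn.refl h1
  | n + 1, hb, hS => by
    have h1 := conn_down (S := S) β hx n (fun j hj => hb j (by omega))
      (fun j hj => hS j (by omega))
    have h3 := conn_cross (e := e) (S := S) β (mem_blk.mpr (hb n (by omega)))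
      (mem_blk.mpr (hb (n + 1) (le_refl _)))
      (Or.inr (Or.inl ⟨rfl, rfl, i, by simp [dn, List.replicate_succ]⟩))
      (hS n (by omega)) (hS (n + 1) (le_refl _))
    exact Conn.trans' h1 h3

theorem conn_own {S : Finset (Fin k ⊕ XX k t s nC M L N m)} (β : BI s M L N) {x : TV k}
    (hx : x ∈ blk k t) (hxS : vb nC m β x hx ∉ S) (hi : .inl x.1 ∉ S)
    (hQ : ∀ s (hs : s ∈ blk k t), s ∈ QB t x.1 x → vb nC m β s hs ∉ S) :
    Conn (oGraph e s M N m) S t (vb nC m β x hx) (.inl x.1) := by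
  have hx0 := mem_blk.mp hx
  obtain ⟨a, ε, l⟩ := x
  have h2 : l.length + 1 ≤ t := by
    have := hx0.2.2
    simp only at this
    split_ifs at this <;> omega
  refine (conn_up β l hx ?_ hi).mono (by omega)
  intro l' hs
  by_cases hl' : l' = l
  · subst hl'
    exact hxS
  · apply hQ
    unfold QB
    rw [if_pos rfl]
    exact ⟨rfl, rfl, hs, hl'⟩

theorem conn_path {S : Finset (Fin k ⊕ XX k t s nC M L N m)} (β : BI s M L N) {i : Fin k} {x : TV k}
    (hx : x ∈ blk k t) (hxB : ¬ Bot t x) (hxS : vb nC m β x hx ∉ S) (hi : .inl i ∉ S)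
    (hQ : ∀ s (hs : s ∈ blk k t), s ∈ QB t i x → vb nC m β s hs ∉ S) :
    Conn (oGraph e s M N m) S (t + 1) (vb nC m β x hx) (.inl i) := by
  have hx0 := mem_blk.mp hx
  by_cases hia : i = x.1
  · subst hia
    exact (conn_own β hx hxS hi hQ).mono (by omega)
  · obtain ⟨hd, hb⟩ := JJ_spec hx0 hia
    have hlen := len_path hx0 hia
    have hS : ∀ j (hj : j ≤ JJ t i x), vb nC m β (dn i j x) (mem_blk.mpr (hb j hj)) ∉ S := by
      intro j hj
      rcases Nat.eq_zero_or_pos j with h0 | h0
      · subst h0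
        simp only [dn_zero]
        exact hxS
      · apply hQ
        unfold QB
        rw [if_neg hia]
        exact Or.inl ⟨j, h0, hj, rfl⟩
    have hB : ¬ Bot t (dn i (JJ t i x) x) ∨ (dn i (JJ t i x) x).2.2.head? = some i := by
      rcases Nat.eq_zero_or_pos (JJ t i x) with h0 | h0
      · left
        rw [h0, dn_zero]
        exact hxB
      · right
        obtain ⟨j, hj⟩ : ∃ j, JJ t i x = j + 1 := ⟨JJ t i x - 1, by omega⟩
        rw [hj]
        simp [dn, List.replicate_succ]
    have h1 := conn_down (e := e) (S := S) β hx0 (JJ t i x) hb hS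
    have h2 := conn_dir (e := e) (S := S) β (mem_blk.mpr (hb _ (le_refl _))) (i := i) hia hB hd
      (hS _ (le_refl _)) hi (by
        intro s hs hsf
        apply hQ
        unfold QB
        rw [if_neg hia]
        exact Or.inr hsf)
    exact (Conn.trans' h1 h2).mono (by omega)

theorem conn_lab {S : Finset (Fin k ⊕ XX k t s nC M L N m)} (ht : 2 ≤ t) (β : BI s M L N) {i : Fin k}
    {x : TV k} (hx : x ∈ blk k t) (hxB : Bot t x) (hL : Lab x i) (hxS : vb nC m β x hx ∉ S)
    (hi : .inl i ∉ S)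
    (hQ : ∀ s (hs : s ∈ blk k t), ¬ Bot t s → s.1 = i → vb nC m β s hs ∉ S) :
    Conn (oGraph e s M N m) S t (vb nC m β x hx) (.inl i) := by
  have hx0 := mem_blk.mp hx
  by_cases hia : i = x.1
  · subst hia
    refine conn_own β hx hxS hi ?_
    intro s hs hsQ
    have h1 := QB_own hsQ
    refine hQ s hs ?_ h1.1
    intro h2
    have h3 := ancB_len h1
    have h4 := h2.2
    have h5 := hxB.2
    omega
  · have hh : x.2.2.head? = some i := by
      rcases hL with h1 | h1
      · exact absurd h1.symm hia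
      · exact h1
    have hnx : nx t i x = (i, true, (sw x.1 i x.2.2).tail) := by
      unfold nx
      rw [if_neg (by
        rintro ⟨h1, -⟩
        have := hxB.2
        omega), if_neg (by rw [hxB.1]; simp), if_pos hh]
    have h2 := conn_dir (e := e) (S := S) β hx (i := i) hia (Or.inr hh)
      (Or.inr (Or.inr hxB.2)) hxS hi (by
        intro s hs hsf
        have h3 : s.1 = i := hsf.1.trans (nx_fst t i _)
        refine hQ s hs ?_ h3
        intro h4
        have h5 : s.2.1 = true := by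
          rw [hsf.2.1, hnx]
        rw [h4.1] at h5
        exact absurd h5 (by simp))
    refine h2.mono ?_
    rw [hnx]
    simp only [List.length_tail, sw_length]
    have := hxB.2
    omega

end Pool.Agent.FTH
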